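import Pool.Agent.L0h52.VP.Save

/-! Comparison of heights along the sequence. -/

set_option autoImplicit false

namespace Pool.Agent.L0h52.VP

open NumberField Module Height Real
open Pool.Agent.Y733.VR Pool.Agent.L0h52.VE

variable {K : Type} [Field K] [NumberField K]

theorem hh_two' : hh (2 : K) = Real.log 2 := hh_two

/-- `u` is bounded by `ξ` -/
theorem hh_u_le {c₀ c₁ c₂ u ξ : K} (h : (u / 2 - ξ ^ 2) ^ 2 = ξ ^ 4 + c₂ * ξ ^ 2 + c₁ * ξ + c₀) :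
    hh u ≤ 4 * hh ξ + ((hh c₀ + hh c₁ + hh c₂ + 3 * Real.log 2) / 2 + 2 * Real.log 2) := by
  have e1 : ξ ^ 4 + c₂ * ξ ^ 2 + c₁ * ξ + c₀ = ξ * (ξ * (ξ ^ 2 + c₂) + c₁) + c₀ := by ring
  have e2 : u = 2 * ((u / 2 - ξ ^ 2) + ξ ^ 2) := by
    have : (2 : K) ≠ 0 := two_ne_zero
    field_simp
    ring
  rw [e1] at h
  have h1 : hh ((u / 2 - ξ ^ 2) ^ 2) = 2 * hh (u / 2 - ξ ^ 2) := by rw [hh_pow]; norm_num
  have h2 : hh (ξ ^ 2) = 2 * hh ξ := by rw [hh_pow]; norm_num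
  have h3 := hh_add_le (ξ * (ξ * (ξ ^ 2 + c₂) + c₁)) c₀
  have h4 := hh_mul_le ξ (ξ * (ξ ^ 2 + c₂) + c₁)
  have h5 := hh_add_le (ξ * (ξ ^ 2 + c₂)) c₁
  have h6 := hh_mul_le ξ (ξ ^ 2 + c₂)
  have h7 := hh_add_le (ξ ^ 2) c₂
  have h8 := hh_mul_le 2 ((u / 2 - ξ ^ 2) + ξ ^ 2)
  have h9 := hh_add_le (u / 2 - ξ ^ 2) (ξ ^ 2)
  rw [← e2, hh_two] at h8
  rw [← h, h1] at h3
  linarith

/-- `ξ` is bounded by `u` -/
theorem hh_xi_le {a₄ a₆ c₁ c₂ u v : K} (h : v ^ 2 = phi c₂ a₄ a₆ u) :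
    hh (xi c₁ c₂ u v) ≤ 5 / 2 * hh u +
      ((hh c₂ + hh a₄ + hh a₆ + 3 * Real.log 2) / 2 + hh c₁ + hh c₂ + 3 * Real.log 2) := by
  have e1 : phi c₂ a₄ a₆ u = u * (u * (u + c₂) + a₄) + a₆ := by unfold phi; ring
  rw [e1] at h
  have h1 : hh (v ^ 2) = 2 * hh v := by rw [hh_pow]; norm_num
  have h3 := hh_add_le (u * (u * (u + c₂) + a₄)) a₆
  have h4 := hh_mul_le u (u * (u + c₂) + a₄)
  have h5 := hh_add_le (u * (u + c₂)) a₄
  have h6 := hh_mul_le u (u + c₂)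
  have h7 := hh_add_le u c₂
  rw [← h, h1] at h3
  unfold xi
  have h8 := hh_div_le (v - c₁) (2 * (u + c₂))
  have h9 := hh_sub_le v c₁
  have h10 := hh_mul_le 2 (u + c₂)
  rw [hh_two] at h10
  linarith

theorem four_pow (U : ℕ → ℝ) {C : ℝ} (hC : 0 ≤ C) (h : ∀ i, |U (i + 1) - 4 * U i| ≤ C) (i j : ℕ) :
    |U (i + j) - 4 ^ j * U i| ≤ 4 ^ j * C := by
  have key : |U (i + j) - 4 ^ j * U i| ≤ (4 ^ j - 1) * C := by
    induction j with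
    | zero => simp
    | succ j ih =>
      have h1 := h (i + j)
      rw [abs_le] at h1 ih ⊢
      have e : i + (j + 1) = i + j + 1 := rfl
      rw [e, pow_succ]
      constructor <;> nlinarith [h1.1, h1.2, ih.1, ih.2]
  refine key.trans ?_
  nlinarith

/-- points of a sequence which give pairs with small discriminants -/
structure Pairs (f : Polynomial K) (r : ℕ) (x : ℕ → K) : Prop where
  tends : ∀ B : ℝ, ∃ i₀, ∀ i ≥ i₀, B ≤ hh (x i)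
  grow : ∀ j : ℕ, ∃ C : ℝ, ∀ i, 4 ^ j * hh (x i) / 10 ≤ hh (x (i + j)) + C
  rad : ∀ j : ℕ, ∃ C : ℝ, ∀ i, ∃ δ₀ δ₁ δ₂ s₁ s₂ : K, δ₀ ≠ 0 ∧ δ₁ ≠ 0 ∧ δ₂ ≠ 0 ∧ s₁ ≠ 0 ∧ s₂ ≠ 0 ∧
    IsIntegral ℤ δ₀ ∧ IsIntegral ℤ δ₁ ∧ IsIntegral ℤ δ₂ ∧ f.eval (x i) = δ₀ * δ₁ * s₁ ^ 2 ∧
    f.eval (x (i + j)) = δ₀ * δ₂ * s₂ ^ 2 ∧
    ln δ₀ + ln δ₁ + ln δ₂ ≤ 2 * r * (hh (x i) + hh (x (i + j))) -
      (hh (x i) + hh (x (i + j))) / (10 * 4 ^ j) + C

theorem dom_iter (v : FinitePlace K) (n : ℕ) (u : ℕ → K)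
    (h : ∀ i, v ((n : K) * u i) ≤ max 1 (v (u (i + 1)))) (i j : ℕ) :
    v (((n ^ j : ℕ) : K) * u i) ≤ max 1 (v (u (i + j))) := by
  induction j with
  | zero =>
    rw [pow_zero, Nat.cast_one, one_mul]
    exact le_max_right _ _
  | succ j ih =>
    have h1 := h (i + j)
    have hn := pl_natCast_le v n
    have hn0 := apply_nonneg v (n : K)
    have e : (((n ^ (j + 1) : ℕ) : K)) * u i = (n : K) * (((n ^ j : ℕ) : K) * u i) := by
      push_cast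
      ring
    rw [e, map_mul]
    rw [map_mul] at h1
    calc v (n : K) * v (((n ^ j : ℕ) : K) * u i) ≤ v (n : K) * max 1 (v (u (i + j))) :=
          mul_le_mul_of_nonneg_left ih hn0
      _ = max (v (n : K)) (v (n : K) * v (u (i + j))) := by
          rw [mul_max_of_nonneg _ _ hn0, mul_one]
      _ ≤ max 1 (v (u (i + (j + 1)))) := max_le (hn.trans (le_max_left _ _)) h1

/-- **the sequence gives pairs** -/
theorem pairs_of {c₀ c₁ c₂ s : K} {f q : Polynomial K} {t : ℕ} {C : ℝ} (hC : 0 ≤ C) {u v : ℕ → K}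
    (hf : ∀ x : K, f.eval x = ((x - s) ^ 4 + c₂ * (x - s) ^ 2 + c₁ * (x - s) + c₀) * q.eval x)
    (hq : q.natDegree ≤ 2 * t + 1)
    (hon : ∀ i, v i ^ 2 = phi c₂ (-(4 * c₀)) (c₁ ^ 2 - 4 * c₀ * c₂) (u i)) (hv : ∀ i, v i ≠ 0)
    (hu : ∀ i, u i + c₂ ≠ 0) (hi : ∀ i : ℕ, (i : ℝ) ≤ hh (u i))
    (hd : ∀ i, u (i + 1) = dU c₂ (-(4 * c₀)) (c₁ ^ 2 - 4 * c₀ * c₂) (u i))
    (hC' : ∀ i, |hh (u (i + 1)) - 4 * hh (u i)| ≤ C)
    (hne : ∀ i, f.eval (xi c₁ c₂ (u i) (v i) + s) ≠ 0) :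
    Pairs f (t + 1) (fun i => xi c₁ c₂ (u i) (v i) + s) := by
  classical
  set x : ℕ → K := fun i => xi c₁ c₂ (u i) (v i) + s with hx
  have hsq : ∀ i, (u i / 2 - (x i - s) ^ 2) ^ 2 =
      (x i - s) ^ 4 + c₂ * (x i - s) ^ 2 + c₁ * (x i - s) + c₀ := by
    intro i
    have : x i - s = xi c₁ c₂ (u i) (v i) := add_sub_cancel_right _ _
    rw [this]
    exact xi_sq (hon i) (hu i)
  have hrel : ∀ i, Rel c₀ c₁ c₂ s (u i) (x i) := by
    intro i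
    have : x i - s = xi c₁ c₂ (u i) (v i) := add_sub_cancel_right _ _
    unfold Rel
    rw [this]
    exact xi_rel (hon i) (hu i)
  have l2 : 0 ≤ Real.log 2 := Real.log_nonneg (by norm_num)
  obtain ⟨D₁, hD₁, hux⟩ : ∃ D, 0 ≤ D ∧ ∀ i, hh (u i) ≤ 4 * hh (x i) + D := by
    refine ⟨4 * (hh s + Real.log 2) + ((hh c₀ + hh c₁ + hh c₂ + 3 * Real.log 2) / 2 +
      2 * Real.log 2), ?_, fun i => ?_⟩
    · linarith [hh_nonneg s, hh_nonneg c₀, hh_nonneg c₁, hh_nonneg c₂]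
    · have h1 := hh_u_le (hsq i)
      have h2 := hh_sub_le (x i) s
      linarith
  obtain ⟨D₂, hD₂, hxu⟩ : ∃ D, 0 ≤ D ∧ ∀ i, hh (x i) ≤ 5 / 2 * hh (u i) + D := by
    refine ⟨((hh c₂ + hh (-(4 * c₀)) + hh (c₁ ^ 2 - 4 * c₀ * c₂) + 3 * Real.log 2) / 2 + hh c₁ +
      hh c₂ + 3 * Real.log 2) + hh s + Real.log 2, ?_, fun i => ?_⟩
    · linarith [hh_nonneg s, hh_nonneg (-(4 * c₀)), hh_nonneg c₁, hh_nonneg c₂,
        hh_nonneg (c₁ ^ 2 - 4 * c₀ * c₂)]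
    · have h1 := hh_xi_le (c₁ := c₁) (hon i)
      have h2 := hh_add_le (xi c₁ c₂ (u i) (v i)) s
      have e : x i = xi c₁ c₂ (u i) (v i) + s := rfl
      rw [e]
      linarith
  have hU := four_pow (fun i => hh (u i)) hC hC'
  have hu0 : ∀ i, 0 ≤ hh (u i) := fun i => hh_nonneg _
  refine ⟨fun B => ?_, fun j => ?_, fun j => ?_⟩
  · obtain ⟨i₀, hi₀⟩ := exists_nat_ge (4 * B + D₁)
    refine ⟨i₀, fun i hi' => ?_⟩
    have h1 : (i₀ : ℝ) ≤ i := by exact_mod_cast hi'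
    have := hi i
    have := hux i
    linarith
  · refine ⟨4 ^ j * D₂ / 10 + (4 ^ j * C + D₁) / 4, fun i => ?_⟩
    have h1 := hU i j
    rw [abs_le] at h1
    have h2 := hux (i + j)
    have h3 := hxu i
    have h4 : (0 : ℝ) < 4 ^ j := by positivity
    have h5 := mul_le_mul_of_nonneg_left h3 h4.le
    have h6 := h1.1
    nlinarith
  · obtain ⟨n₁, hn₁, hint⟩ := exists_nat_int
      ({c₂, -(4 * c₀), c₁ ^ 2 - 4 * c₀ * c₂} : Finset K)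
    have i2 := hint c₂ (by simp)
    have i4 := hint (-(4 * c₀)) (by simp)
    have i6 := hint (c₁ ^ 2 - 4 * c₀ * c₂) (by simp)
    have hphi : ∀ i, phi c₂ (-(4 * c₀)) (c₁ ^ 2 - 4 * c₀ * c₂) (u i) ≠ 0 := by
      intro i
      rw [← hon i]
      exact pow_ne_zero _ (hv i)
    have hdom : ∀ (w : FinitePlace K) (i : ℕ), w ((n₁ : K) * u i) ≤ max 1 (w (u (i + 1))) := by
      intro w i
      have h1 := loc_dU w (one_le_inv_pl w hn₁) (pl_den w hn₁ i2) (pl_den w hn₁ i4)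
        (pl_den w hn₁ i6) (hphi i)
      rw [← hd i] at h1
      have h0 : 0 < w (n₁ : K) := FinitePlace.pos_iff.2 (Nat.cast_ne_zero.2 hn₁)
      rw [map_mul]
      calc w (n₁ : K) * w (u i) ≤ w (n₁ : K) * ((w (n₁ : K))⁻¹ * max 1 (w (u (i + 1)))) :=
            mul_le_mul_of_nonneg_left h1 h0.le
        _ = _ := by rw [← mul_assoc, mul_inv_cancel₀ h0.ne', one_mul]
    obtain ⟨C₁, hC₁⟩ := save c₀ c₁ c₂ s q t hq (n₁ ^ j) (pow_ne_zero _ hn₁)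
    -- the constant
    set B : ℝ := 4 ^ j * C + 2 * D₂ with hB
    refine ⟨C₁ + (5 / 2 * 4 ^ j * C + 2 * D₂) / (10 * 4 ^ j), fun i => ?_⟩
    have hq' : ∀ i, q.eval (x i) ≠ 0 := by
      intro i h0
      apply hne i
      show f.eval (x i) = 0
      rw [hf, h0, mul_zero]
    have hw : ∀ i, u i / 2 - (x i - s) ^ 2 ≠ 0 := by
      intro i h0
      apply hne i
      show f.eval (x i) = 0
      rw [hf, ← hsq i, h0]
      ring
    obtain ⟨δ₀, δ₁, δ₂, s₁, s₂, k0, k1, k2, k3, k4, k5, k6, k7, k8, k9, k10⟩ :=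
      hC₁ (x i) (x (i + j)) (u i) (u (i + j)) (hrel i) (hrel (i + j))
        (fun w => dom_iter w n₁ u (hdom w) i j) (hq' i) (hq' (i + j))
    refine ⟨δ₀, δ₁, δ₂, (u i / 2 - (x i - s) ^ 2) * s₁,
      (u (i + j) / 2 - (x (i + j) - s) ^ 2) * s₂, k0, k1, k2, mul_ne_zero (hw i) k3,
      mul_ne_zero (hw _) k4, k5, k6, k7, ?_, ?_, ?_⟩
    · show f.eval (x i) = _
      rw [hf, ← hsq i, k8]
      ring
    · show f.eval (x (i + j)) = _
      rw [hf, ← hsq (i + j), k9]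
      ring
    · have h1 := hU i j
      rw [abs_le] at h1
      have h6 := h1.2
      have h2 := hxu i
      have h3 := hxu (i + j)
      have h4 : (0 : ℝ) < 4 ^ j := by positivity
      have h4' : (1 : ℝ) ≤ 4 ^ j := one_le_pow₀ (by norm_num)
      have h5 : hh (x i) + hh (x (i + j)) ≤ 5 * 4 ^ j * hh (u i) +
          (5 / 2 * 4 ^ j * C + 2 * D₂) := by
        nlinarith [hu0 i]
      have h7 : (hh (x i) + hh (x (i + j))) / (10 * 4 ^ j) ≤ hh (u i) / 2 +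
          (5 / 2 * 4 ^ j * C + 2 * D₂) / (10 * 4 ^ j) := by
        rw [div_le_iff₀ (by positivity), add_mul, div_mul_cancel₀ _ (by positivity)]
        linarith
      have h8 : (2 * (t : ℝ) + 2) * (hh (x i) + hh (x (i + j))) =
          2 * ((t + 1 : ℕ) : ℝ) * (hh (x i) + hh (x (i + j))) := by
        push_cast
        ring
      rw [h8] at k10
      show _ ≤ 2 * ((t + 1 : ℕ) : ℝ) * (hh (x i) + hh (x (i + j))) -
        (hh (x i) + hh (x (i + j))) / (10 * 4 ^ j) + _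
      linarith

end Pool.Agent.L0h52.VP
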