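import Pool.Agent.L0h52.VP.Quart
import Pool.Agent.L0h52.VE.Fin

/-! Heights of doubles and the sequence of the points `2^i P`. -/

set_option autoImplicit false

namespace Pool.Agent.L0h52.VP

open NumberField Module Height Real
open Pool.Agent.Y733.VR Pool.Agent.L0h52.VE

theorem hh_dU {K : Type} [Field K] [NumberField K] (a₂ a₄ a₆ : K)
    (hΔ : (⟨0, a₂, 0, a₄, a₆⟩ : WeierstrassCurve K).Δ ≠ 0) :
    ∃ C : ℝ, 0 ≤ C ∧ ∀ u : K, phi a₂ a₄ a₆ u ≠ 0 → |hh (dU a₂ a₄ a₆ u) - 4 * hh u| ≤ C := by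
  set W : WeierstrassCurve K := ⟨0, a₂, 0, a₄, a₆⟩ with hW
  have : W.IsElliptic := ⟨isUnit_iff_ne_zero.2 hΔ⟩
  obtain ⟨C₁, h₁⟩ := W.abs_logHeight_addSubMap_sub_two_mul_logHeight_le
  obtain ⟨C₂, h₂⟩ := abs_logHeight_sym2_sub_le K
  refine ⟨(|C₁| + 2 * |C₂|) / finrank ℚ K, by positivity, fun u hu => ?_⟩
  have e1 := h₁ ![u * u, u * 1 + 1 * u, 1 * 1]
  have e2 := h₂ (a := u) (b := 1) (c := u) (d := 1) (by simp) (by simp)
  have e3 : (fun i => ((WeierstrassCurve.addSubMap W i).eval ![u * u, u * 1 + 1 * u, 1 * 1])) =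
      ![u ^ 4 - 2 * a₄ * u ^ 2 - 8 * a₆ * u + (a₄ ^ 2 - 4 * a₂ * a₆), 4 * phi a₂ a₄ a₆ u, 0] := by
    funext i
    fin_cases i
    · simp [WeierstrassCurve.addSubMap, hW, WeierstrassCurve.b₂, WeierstrassCurve.b₄,
        WeierstrassCurve.b₆, WeierstrassCurve.b₈]
      ring
    · simp [WeierstrassCurve.addSubMap, hW, WeierstrassCurve.b₂, WeierstrassCurve.b₄,
        WeierstrassCurve.b₆, WeierstrassCurve.b₈, phi]
      ring
    · simp [WeierstrassCurve.addSubMap]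
      ring
  rw [e3, logHeight_cons_cons_cons_zero] at e1
  have e4 : logHeight (Matrix.vecCons (u ^ 4 - 2 * a₄ * u ^ 2 - 8 * a₆ * u + (a₄ ^ 2 - 4 * a₂ * a₆))
      (Matrix.vecCons (4 * phi a₂ a₄ a₆ u) ![])) = logHeight₁ (dU a₂ a₄ a₆ u) := by
    unfold dU
    rw [logHeight₁_div_eq_logHeight]
  rw [e4] at e1
  rw [← logHeight₁_eq_logHeight] at e2
  have hd : (0 : ℝ) < finrank ℚ K := deg_pos
  unfold hh
  rw [mul_div_assoc', ← sub_div, abs_div, abs_of_pos hd]
  refine div_le_div_of_nonneg_right ?_ hd.le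
  set a := logHeight ![u * u, u * 1 + 1 * u, 1 * 1]
  rw [abs_le] at e1 e2 ⊢
  have := le_abs_self C₁
  have := le_abs_self C₂
  constructor <;> linarith [e1.1, e1.2, e2.1, e2.2]

theorem hh_roots {K : Type} [Field K] [NumberField K] (a₂ a₄ a₆ : K) :
    ∃ H : ℝ, ∀ u : K, phi a₂ a₄ a₆ u = 0 → hh u ≤ H := by
  classical
  open Polynomial in
  set P : K[X] := X ^ 3 + C a₂ * X ^ 2 + C a₄ * X + C a₆ with hP
  have hP0 : P ≠ 0 := by
    intro h
    have h1 : P.coeff 3 = 1 := by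
      rw [hP]
      simp [Polynomial.coeff_X, Polynomial.coeff_C]
    rw [h] at h1
    rw [Polynomial.coeff_zero] at h1
    exact zero_ne_one h1
  have hfin : {u : K | phi a₂ a₄ a₆ u = 0}.Finite := by
    refine (P.roots.toFinset.finite_toSet).subset fun u hu => ?_
    rw [Finset.mem_coe, Multiset.mem_toFinset, Polynomial.mem_roots hP0, Polynomial.IsRoot.def, hP]
    simp only [Polynomial.eval_add, Polynomial.eval_pow, Polynomial.eval_mul, Polynomial.eval_C,
      Polynomial.eval_X]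
    exact hu
  obtain ⟨H, hH⟩ := (hfin.image hh).bddAbove
  exact ⟨H, fun u hu => hH ⟨u, hu, rfl⟩⟩

theorem dU_map {K L : Type} [Field K] [Field L] (f : K →+* L) (a₂ a₄ a₆ u : K) :
    f (dU a₂ a₄ a₆ u) = dU (f a₂) (f a₄) (f a₆) (f u) := by
  unfold dU phi
  simp only [map_div₀, map_add, map_sub, map_mul, map_pow, map_ofNat]

/-- **the sequence of the doubles** -/
theorem exists_dbl (K : Type) [Field K] [NumberField K] (a₂ a₄ a₆ : K)
    (hΔ : (⟨0, a₂, 0, a₄, a₆⟩ : WeierstrassCurve K).Δ ≠ 0) (H : ℝ) :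
    ∃ (C : ℝ) (L : Type) (_ : Field L) (_ : NumberField L) (_ : Algebra K L) (u v : ℕ → L),
      0 ≤ C ∧ ∀ i, v i ^ 2 = phi (algebraMap K L a₂) (algebraMap K L a₄) (algebraMap K L a₆) (u i) ∧
        v i ≠ 0 ∧ H < hh (u i) ∧ (i : ℝ) ≤ hh (u i) ∧
        u (i + 1) = dU (algebraMap K L a₂) (algebraMap K L a₄) (algebraMap K L a₆) (u i) ∧
        |hh (u (i + 1)) - 4 * hh (u i)| ≤ C := by
  obtain ⟨C, hC, hd⟩ := hh_dU a₂ a₄ a₆ hΔ
  obtain ⟨H₀, hH₀⟩ := hh_roots a₂ a₄ a₆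
  obtain ⟨n, hn⟩ := exists_nat_gt (Real.exp (|H| + |H₀| + C + 1))
  have hn0 : (0 : ℝ) < n := (Real.exp_pos _).trans hn
  have hn0' : n ≠ 0 := by
    rintro rfl
    simp at hn0
  have : NeZero n := ⟨hn0'⟩
  have hlog : |H| + |H₀| + C + 1 < Real.log n := by
    rw [Real.lt_log_iff_exp_lt hn0]
    exact hn
  set uK : ℕ → K := fun i => (dU a₂ a₄ a₆)^[i] (n : K) with huK
  have huS : ∀ i, uK (i + 1) = dU a₂ a₄ a₆ (uK i) := fun i => Function.iterate_succ_apply' _ _ _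
  have hφ : ∀ i, |H| + |H₀| + C + 1 < hh (uK i) → phi a₂ a₄ a₆ (uK i) ≠ 0 := by
    intro i hi h0
    have := hH₀ _ h0
    have := le_abs_self H₀
    have := abs_nonneg H
    linarith
  have hgr : ∀ i, |H| + |H₀| + C + 1 < hh (uK i) ∧ (i : ℝ) ≤ hh (uK i) := by
    intro i
    induction i with
    | zero =>
      have : hh (uK 0) = Real.log n := hh_natCast n
      rw [this]
      refine ⟨hlog, ?_⟩
      have := abs_nonneg H
      have := abs_nonneg H₀
      push_cast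
      linarith
    | succ i ih =>
      obtain ⟨h1, h2⟩ := ih
      have h3 := hd _ (hφ i h1)
      rw [← huS, abs_le] at h3
      have := abs_nonneg H
      have := abs_nonneg H₀
      push_cast
      constructor <;> linarith [h3.1]
  obtain ⟨L, iF, iN, iA, s₁, -, hs₁, -⟩ := exists_two_sqrt K (phi a₂ a₄ a₆ (n : K)) 1
  set b₂ := algebraMap K L a₂ with hb₂
  set b₄ := algebraMap K L a₄ with hb₄
  set b₆ := algebraMap K L a₆ with hb₆
  have hphi : ∀ x : K, algebraMap K L (phi a₂ a₄ a₆ x) = phi b₂ b₄ b₆ (algebraMap K L x) := by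
    intro x
    unfold phi
    simp only [map_add, map_mul, map_pow]
    rfl
  set p : ℕ → L × L := fun i => (fun q : L × L => (dU b₂ b₄ b₆ q.1, dV b₂ b₄ b₆ q.1 q.2))^[i]
    ((n : L), s₁) with hp
  have hpS : ∀ i, p (i + 1) = (dU b₂ b₄ b₆ (p i).1, dV b₂ b₄ b₆ (p i).1 (p i).2) := fun i =>
    Function.iterate_succ_apply' _ _ _
  have hp1 : ∀ i, (p i).1 = algebraMap K L (uK i) := by
    intro i
    induction i with
    | zero =>
      show (n : L) = algebraMap K L (n : K)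
      rw [map_natCast]
    | succ i ih => rw [hpS, huS, dU_map, ← ih]
  have hne : ∀ i, phi b₂ b₄ b₆ (p i).1 ≠ 0 := by
    intro i
    rw [hp1, ← hphi]
    exact (map_ne_zero_iff _ (algebraMap K L).injective).2 (hφ i (hgr i).1)
  have hp2 : ∀ i, (p i).2 ^ 2 = phi b₂ b₄ b₆ (p i).1 := by
    intro i
    induction i with
    | zero =>
      show s₁ ^ 2 = phi b₂ b₄ b₆ (n : L)
      rw [hs₁, hphi, map_natCast]
    | succ i ih =>
      rw [hpS]
      refine dV_sq ih ?_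
      intro h0
      apply hne i
      rw [← ih, h0]
      ring
  refine ⟨C, L, iF, iN, iA, fun i => (p i).1, fun i => (p i).2, hC, fun i => ⟨hp2 i, ?_, ?_, ?_, ?_, ?_⟩⟩
  · intro h0
    simp only at h0
    apply hne i
    rw [← hp2 i, h0]
    ring
  · simp only
    rw [hp1, hh_ext]
    have := (hgr i).1
    have := le_abs_self H
    have := abs_nonneg H₀
    linarith
  · simp only
    rw [hp1, hh_ext]
    exact (hgr i).2
  · simp only
    rw [hpS]
  · simp only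
    rw [hp1, hp1, hh_ext, hh_ext, huS]
    exact hd _ (hφ i (hgr i).1)

end Pool.Agent.L0h52.VP
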