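import Pool.Agent.L0h52.VP.RootHt
import Pool.Agent.L0h52.VE.Main
import Pool.Agent.Y733.VR.Subst

/-! The exceptional set on products of hyperelliptic curves with a repeated factor. -/

set_option autoImplicit false

namespace Pool.Agent.L0h52.VP

open NumberField Module Height Polynomial
open Pool.Agent.Y733.VR Pool.Agent.L0h52.VE

section spec
variable {k K : Type} [Field k] [Field K] [Algebra k K] {n : ℕ}

/-- two of the variables are kept, the other ones are specialised -/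
noncomputable def bi (K : Type) [Field K] [Algebra k K] (i₀ i₁ : Fin n) (b : Fin n → k)
    (G : MvPolynomial (Fin n) k) : K[X][X] :=
  MvPolynomial.eval₂ ((C.comp C).comp (algebraMap k K))
    (fun i => if i = i₀ then C X else if i = i₁ then X else C (C (algebraMap k K (b i)))) G

/-- the point with two given coordinates -/
def pt (i₀ i₁ : Fin n) (b : Fin n → k) (x y : K) (i : Fin n) : K :=
  if i = i₀ then x else if i = i₁ then y else algebraMap k K (b i)

theorem evalEval_bi (i₀ i₁ : Fin n) (b : Fin n → k) (G : MvPolynomial (Fin n) k) (x y : K) :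
    (bi K i₀ i₁ b G).evalEval x y = MvPolynomial.aeval (pt i₀ i₁ b x y) G := by
  have h1 : (bi K i₀ i₁ b G).evalEval x y = evalEvalRingHom x y (bi K i₀ i₁ b G) := rfl
  rw [h1]
  unfold bi
  rw [MvPolynomial.eval₂_comp_left, MvPolynomial.aeval_def]
  have h2 : (evalEvalRingHom x y).comp ((C.comp C).comp (algebraMap k K)) = algebraMap k K := by
    ext a
    simp
  have h3 : (⇑(evalEvalRingHom x y) ∘ fun i => if i = i₀ then (C X : K[X][X]) else
      if i = i₁ then X else C (C (algebraMap k K (b i)))) = pt i₀ i₁ b x y := by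
    funext i
    simp only [Function.comp_apply]
    unfold pt
    split_ifs <;> simp
  rw [h2, h3]

theorem bi_ne_zero {i₀ i₁ : Fin n} {b : Fin n → k} {G : MvPolynomial (Fin n) k}
    (hb : MvPolynomial.eval b G ≠ 0) : bi K i₀ i₁ b G ≠ 0 := by
  intro h0
  have h1 := evalEval_bi (K := K) i₀ i₁ b G (algebraMap k K (b i₀)) (algebraMap k K (b i₁))
  have h2 : (pt i₀ i₁ b (algebraMap k K (b i₀)) (algebraMap k K (b i₁)) : Fin n → K) =
      algebraMap k K ∘ b := by
    funext i
    unfold pt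
    simp only [Function.comp_apply]
    split_ifs with h h'
    · rw [h]
    · rw [h']
    · rfl
  rw [h0, h2, MvPolynomial.aeval_algebraMap_apply] at h1
  have h3 : (0 : K[X][X]).evalEval (algebraMap k K (b i₀)) (algebraMap k K (b i₁)) = 0 := by simp
  rw [h3] at h1
  have h4 := (map_eq_zero_iff _ (algebraMap k K).injective).1 h1.symm
  exact hb h4

theorem natDegree_bi {i₀ i₁ : Fin n} (h01 : i₀ ≠ i₁) (b : Fin n → k) (G : MvPolynomial (Fin n) k)
    (m : ℕ) : ((bi K i₀ i₁ b G).coeff m).natDegree ≤ G.degreeOf i₀ := by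
  classical
  unfold bi
  rw [MvPolynomial.eval₂_eq', finsetSum_coeff]
  refine natDegree_sum_le_of_forall_le _ _ fun s hs => ?_
  have h1 : i₁ ∈ (Finset.univ : Finset (Fin n)).erase i₀ :=
    Finset.mem_erase.2 ⟨h01.symm, Finset.mem_univ _⟩
  have h2 : ∏ i : Fin n, (if i = i₀ then (C X : K[X][X]) else if i = i₁ then X else
      C (C (algebraMap k K (b i)))) ^ s i =
      C (X ^ s i₀ * C (∏ i ∈ (Finset.univ.erase i₀).erase i₁, algebraMap k K (b i) ^ s i)) *
        X ^ s i₁ := by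
    rw [← Finset.mul_prod_erase Finset.univ _ (Finset.mem_univ i₀),
      ← Finset.mul_prod_erase (Finset.univ.erase i₀) _ h1]
    have h3 : ∏ i ∈ (Finset.univ.erase i₀).erase i₁, (if i = i₀ then (C X : K[X][X]) else
        if i = i₁ then X else C (C (algebraMap k K (b i)))) ^ s i =
        C (C (∏ i ∈ (Finset.univ.erase i₀).erase i₁, algebraMap k K (b i) ^ s i)) := by
      rw [map_prod, map_prod]
      refine Finset.prod_congr rfl fun i hi => ?_
      have h4 : i ≠ i₁ := (Finset.mem_erase.1 hi).1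
      have h5 : i ≠ i₀ := (Finset.mem_erase.1 (Finset.mem_erase.1 hi).2).1
      rw [if_neg h5, if_neg h4, map_pow, map_pow]
    rw [h3, if_pos rfl, if_neg h01.symm, if_pos rfl, map_mul, map_pow]
    ring
  rw [h2]
  have h6 : ((C.comp C).comp (algebraMap k K)) (MvPolynomial.coeff s G) =
      (C (C (algebraMap k K (MvPolynomial.coeff s G))) : K[X][X]) := rfl
  rw [h6, ← mul_assoc, ← C_mul, coeff_C_mul_X_pow]
  split_ifs with h
  · refine (natDegree_C_mul_le _ _).trans ((natDegree_mul_C_le _ _).trans ?_)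
    rw [natDegree_X_pow]
    exact MvPolynomial.monomial_le_degreeOf i₀ hs
  · rw [natDegree_zero]
    exact Nat.zero_le _

end spec

/-- square roots of arbitrary elements -/
theorem exists_sqrts (L : Type) [Field L] [NumberField L] {n : ℕ} (a : Fin n → L) :
    ∃ (M : Type) (_ : Field M) (_ : NumberField M) (_ : Algebra L M) (b : Fin n → M),
      (∀ i, b i ^ 2 = algebraMap L M (a i)) ∧ finrank L M ≤ 2 ^ n := by
  classical
  have h : ∀ i, ∃ m : ℕ, m ≠ 0 ∧ IsIntegral ℤ ((m : L) * a i) := by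
    intro i
    obtain ⟨m, hm, h⟩ := exists_nat_int ({a i} : Finset L)
    exact ⟨m, hm, h _ (Finset.mem_singleton_self _)⟩
  choose m hm hint using h
  set c : ℕ → L := fun j => if hj : j < n then (if a ⟨j, hj⟩ = 0 then 1 else
    (m ⟨j, hj⟩ : L) ^ 2 * a ⟨j, hj⟩) else 1 with hc
  obtain ⟨M, iF, iN, iA, b, hb, hfin, -⟩ := tower_sqrt n L c fun j hj => by
    have hm' : (m ⟨j, hj⟩ : L) ≠ 0 := Nat.cast_ne_zero.2 (hm _)
    rw [hc]
    simp only [dif_pos hj]
    split_ifs with h0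
    · exact ⟨one_ne_zero, isIntegral_one⟩
    · refine ⟨mul_ne_zero (pow_ne_zero _ hm') h0, ?_⟩
      have : (m ⟨j, hj⟩ : L) ^ 2 * a ⟨j, hj⟩ = (m ⟨j, hj⟩ : L) * ((m ⟨j, hj⟩ : L) * a ⟨j, hj⟩) := by
        ring
      rw [this]
      exact (isInt_nat _).mul (hint _)
  refine ⟨M, iF, iN, iA, fun i => if a i = 0 then 0 else b i / (m i : M), fun i => ?_, hfin⟩
  have h1 := hb i i.2
  have hm' : (m i : M) ≠ 0 := Nat.cast_ne_zero.2 (hm _)
  have h2 : c i = if a i = 0 then 1 else (m i : L) ^ 2 * a i := by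
    rw [hc]
    simp only [dif_pos i.2]
  show (if a i = 0 then (0 : M) else b i / (m i : M)) ^ 2 = _
  split_ifs with h0
  · rw [h0, map_zero]
    ring
  · rw [h2, if_neg h0, map_mul, map_pow, map_natCast] at h1
    rw [div_pow, h1]
    field_simp

/-- the point over given coordinates -/
theorem field_step (k K : Type) [Field k] [NumberField k] [Field K] [NumberField K] [Algebra k K]
    {n : ℕ} (f : Fin n → k[X]) (x : Fin n → K) {δ₀ δ₁ δ₂ : K} (h0 : δ₀ ≠ 0) (h1 : δ₁ ≠ 0)
    (h2 : δ₂ ≠ 0) (i0 : IsIntegral ℤ δ₀) (i1 : IsIntegral ℤ δ₁) (i2 : IsIntegral ℤ δ₂)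
    (hx : ∀ i, (∃ c : K, aeval (x i) (f i) = c ^ 2) ∨ (∃ s : K, aeval (x i) (f i) = δ₀ * δ₁ * s ^ 2) ∨
      ∃ s : K, aeval (x i) (f i) = δ₀ * δ₂ * s ^ 2) :
    ∃ (F : Type) (_ : Field F) (_ : NumberField F) (_ : Algebra k F) (x' y' : Fin n → F),
      (∀ i, y' i ^ 2 = aeval (x' i) (f i)) ∧ finrank k F ≤ finrank k K * 2 ^ 3 ∧
      IntermediateField.adjoin k (Set.range x' ∪ Set.range y') = ⊤ ∧
      (∀ G : MvPolynomial (Fin n) k, MvPolynomial.aeval x G ≠ 0 → MvPolynomial.aeval x' G ≠ 0) ∧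
      (∀ i, hh (x' i) = hh (x i)) ∧
      ld F ≤ ld K + (3 * Real.log 2 + (ln δ₀ + ln δ₁ + ln δ₂) / 2) := by
  classical
  set a : ℕ → K := fun j => match j with | 0 => δ₀ | 1 => δ₁ | _ => δ₂ with ha
  obtain ⟨M, jF, jN, jA, b, hb1, hb2, hb3⟩ := tower_sqrt 3 K a (fun i hi => by
    match i, hi with
    | 0, _ => exact ⟨h0, i0⟩
    | 1, _ => exact ⟨h1, i1⟩
    | 2, _ => exact ⟨h2, i2⟩)
  let _ : Algebra k M := ((algebraMap K M).comp (algebraMap k K)).toAlgebra
  have hst : IsScalarTower k K M := IsScalarTower.of_algebraMap_eq (fun x => rfl)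
  have hfdM : FiniteDimensional k M := inferInstance
  have b0 : b 0 ^ 2 = algebraMap K M δ₀ := hb1 0 (by norm_num)
  have b1 : b 1 ^ 2 = algebraMap K M δ₁ := hb1 1 (by norm_num)
  have b2 : b 2 ^ 2 = algebraMap K M δ₂ := hb1 2 (by norm_num)
  have hy : ∀ i, ∃ y : M, y ^ 2 = algebraMap K M (aeval (x i) (f i)) := by
    intro i
    rcases hx i with ⟨c, hc⟩ | ⟨s, hs⟩ | ⟨s, hs⟩
    · exact ⟨algebraMap K M c, by rw [hc, map_pow]⟩
    · refine ⟨b 0 * b 1 * algebraMap K M s, ?_⟩
      rw [hs, mul_pow, mul_pow, b0, b1]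
      simp only [map_mul, map_pow]
    · refine ⟨b 0 * b 2 * algebraMap K M s, ?_⟩
      rw [hs, mul_pow, mul_pow, b0, b2]
      simp only [map_mul, map_pow]
  choose y' hy' using hy
  set x' : Fin n → M := fun i => algebraMap K M (x i) with hx'
  have hxy : ∀ i, y' i ^ 2 = aeval (x' i) (f i) := by
    intro i
    rw [hy', hx']
    simp only
    rw [aeval_algebraMap_apply]
  set Sg : Set M := Set.range x' ∪ Set.range y' with hSg
  set F := IntermediateField.adjoin k Sg with hF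
  have hNFF : NumberField F := NumberField.of_module_finite k F
  have hxF : ∀ i, x' i ∈ F := fun i =>
    IntermediateField.subset_adjoin k Sg (Or.inl ⟨i, rfl⟩)
  have hyF : ∀ i, y' i ∈ F := fun i =>
    IntermediateField.subset_adjoin k Sg (Or.inr ⟨i, rfl⟩)
  refine ⟨F, inferInstance, hNFF, inferInstance, fun i => ⟨x' i, hxF i⟩, fun i => ⟨y' i, hyF i⟩,
    ?_, ?_, ?_, ?_, ?_, ?_⟩
  · intro i
    apply (algebraMap F M).injective
    rw [map_pow, ← aeval_algebraMap_apply]
    exact hxy i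
  · calc finrank k F ≤ finrank k M :=
          Submodule.finrank_le (Subalgebra.toSubmodule F.toSubalgebra)
      _ = finrank k K * finrank K M := (finrank_mul_finrank k K M).symm
      _ ≤ finrank k K * 2 ^ 3 := Nat.mul_le_mul_left _ hb2
  · refine adjoin_self_top Sg _ ?_
    ext z
    constructor
    · rintro ⟨w, hw, rfl⟩
      rcases hw with ⟨i, rfl⟩ | ⟨i, rfl⟩
      · exact Or.inl ⟨i, rfl⟩
      · exact Or.inr ⟨i, rfl⟩
    · rintro (⟨i, rfl⟩ | ⟨i, rfl⟩)
      · exact ⟨⟨x' i, hxF i⟩, Or.inl ⟨i, rfl⟩, rfl⟩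
      · exact ⟨⟨y' i, hyF i⟩, Or.inr ⟨i, rfl⟩, rfl⟩
  · intro G hG h0'
    apply hG
    have h1' : MvPolynomial.aeval x' G = 0 := by
      have h2 := congrArg (algebraMap F M) h0'
      rw [map_zero, ← MvPolynomial.aeval_algebraMap_apply] at h2
      exact h2
    have h2' : MvPolynomial.aeval (algebraMap K M ∘ x) G = 0 := h1'
    rw [MvPolynomial.aeval_algebraMap_apply] at h2'
    exact (map_eq_zero_iff _ (algebraMap K M).injective).1 h2'
  · intro i
    rw [← hh_ext M (⟨x' i, hxF i⟩ : F), ← hh_ext M (x i)]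
    rfl
  · have g1 : ld F ≤ ld M := ld_mono F M
    simp only [Finset.sum_range_succ, Finset.sum_range_zero, ha] at hb3
    linarith

/-- **the main theorem** -/
theorem main (k : Type) [Field k] [NumberField k] {n : ℕ} (f : Fin n → k[X])
    (hf : ∀ i, (f i).Separable ∧ 5 ≤ (f i).natDegree) {i₀ i₁ : Fin n} (h01 : i₀ ≠ i₁)
    (hrep : f i₀ = f i₁) :
    ∃ d : ℕ, ∀ (G : MvPolynomial (Fin n) k) (ε C : ℝ), G ≠ 0 → 0 < ε →
      (∀ (F : Type) [Field F] [NumberField F] [Algebra k F] (x y : Fin n → F),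
        (∀ i, y i ^ 2 = aeval (x i) (f i)) → finrank k F ≤ d →
        IntermediateField.adjoin k (Set.range x ∪ Set.range y) = ⊤ →
        MvPolynomial.aeval x G ≠ 0 →
        ∑ i, (((f i).natDegree - 3) / 2 : ℕ) * hh (x i) ≤ ld F - ld k + (ε * ∑ i, hh (x i) + C)) →
      1 ≤ 800 * ε * (G.degreeOf i₀ + 1) := by
  classical
  obtain ⟨M, iF, iN, iA, x₀, hp₀⟩ := exists_pairs (f i₀) (hf i₀).1 (hf i₀).2
  refine ⟨finrank k M * 2 ^ n * 2 ^ 3, fun G ε C hG hε hV => ?_⟩
  obtain ⟨b, hb, -⟩ := exists_point G hG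
  -- square roots for the other coordinates
  obtain ⟨K, jF, jN, jA, c, hc, hfin⟩ := exists_sqrts M
    (fun i => algebraMap k M ((f i).eval (b i)))
  let _ : Algebra k K := ((algebraMap M K).comp (algebraMap k M)).toAlgebra
  have hst : IsScalarTower k M K := IsScalarTower.of_algebraMap_eq (fun x => rfl)
  have hp : Pairs (((f i₀).map (algebraMap k M)).map (algebraMap M K)) (((f i₀).natDegree - 3) / 2)
      (fun i => algebraMap M K (x₀ i)) := hp₀.map
  rw [Polynomial.map_map] at hp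
  have halg : (algebraMap M K).comp (algebraMap k M) = algebraMap k K := rfl
  rw [halg] at hp
  set x : ℕ → K := fun i => algebraMap M K (x₀ i) with hx
  set r : ℕ := ((f i₀).natDegree - 3) / 2 with hr
  have hfinK : finrank k K * 2 ^ 3 ≤ finrank k M * 2 ^ n * 2 ^ 3 := by
    refine Nat.mul_le_mul_right _ ?_
    rw [← finrank_mul_finrank k M K]
    exact Nat.mul_le_mul_left _ hfin
  have hfi : ∀ i, aeval (algebraMap k K (b i)) (f i) = c i ^ 2 := by
    intro i
    rw [hc i, aeval_algebraMap_apply]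
    rfl
  -- the constants
  set S : Finset (Fin n) := (Finset.univ.erase i₀).erase i₁ with hS
  have hi₁ : i₁ ∈ (Finset.univ : Finset (Fin n)).erase i₀ :=
    Finset.mem_erase.2 ⟨h01.symm, Finset.mem_univ _⟩
  have hsum : ∀ (y z : K) (w : Fin n → ℝ), ∑ i, w i * hh (pt i₀ i₁ b y z i : K) =
      w i₀ * hh y + w i₁ * hh z + ∑ i ∈ S, w i * hh (algebraMap k K (b i)) := by
    intro y z w
    rw [← Finset.add_sum_erase Finset.univ _ (Finset.mem_univ i₀),
      ← Finset.add_sum_erase (Finset.univ.erase i₀) _ hi₁, ← hS, ← add_assoc]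
    congr 1
    · congr 1
      · unfold pt
        rw [if_pos rfl]
      · unfold pt
        rw [if_neg h01.symm, if_pos rfl]
    · refine Finset.sum_congr rfl fun i hi => ?_
      have h4 : i ≠ i₁ := (Finset.mem_erase.1 hi).1
      have h5 : i ≠ i₀ := (Finset.mem_erase.1 (Finset.mem_erase.1 hi).2).1
      unfold pt
      rw [if_neg h5, if_neg h4]
  set c₁ : ℝ := ∑ i ∈ S, (((f i).natDegree - 3) / 2 : ℕ) * hh (algebraMap k K (b i)) with hc₁
  set c₂ : ℝ := ∑ i ∈ S, 1 * hh (algebraMap k K (b i)) with hc₂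
  have hc₁0 : 0 ≤ c₁ := Finset.sum_nonneg fun i _ => mul_nonneg (Nat.cast_nonneg _) (hh_nonneg _)
  -- vanishing
  have hvan : ∀ j : ℕ, ε * (20 * 4 ^ j) < 1 → ∃ i', ∀ i ≥ i',
      (bi K i₀ i₁ b G).evalEval (x i) (x (i + j)) = 0 := by
    intro j hj
    obtain ⟨B, hB⟩ := hp.rad j
    have h4 : (0 : ℝ) < 20 * 4 ^ j := by positivity
    have hgap : 0 < 1 / (20 * 4 ^ j) - ε := by
      rw [sub_pos, lt_div_iff₀ h4]
      exact hj
    set R : ℝ := ld K + 3 * Real.log 2 + B / 2 - ld k + ε * c₂ + C with hR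
    obtain ⟨i', hi'⟩ := hp.tends ((R + 1) / (1 / (20 * 4 ^ j) - ε))
    refine ⟨i', fun i hi => ?_⟩
    by_contra hne
    rw [evalEval_bi] at hne
    obtain ⟨δ₀, δ₁, δ₂, s₁, s₂, k0, k1, k2, k3, k4, k5, k6, k7, k8, k9, k10⟩ := hB i
    rw [eval_map_algebraMap] at k8 k9
    obtain ⟨F, lF, lN, lA, x', y', m1, m2, m3, m4, m5, m6⟩ := field_step k K f
      (pt i₀ i₁ b (x i) (x (i + j))) k0 k1 k2 k5 k6 k7 (fun l => by
        unfold pt
        by_cases hl : l = i₀
        · rw [if_pos hl, hl]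
          exact Or.inr (Or.inl ⟨s₁, k8⟩)
        · by_cases hl' : l = i₁
          · rw [if_neg hl, if_pos hl', hl', ← hrep]
            exact Or.inr (Or.inr ⟨s₂, k9⟩)
          · rw [if_neg hl, if_neg hl']
            exact Or.inl ⟨c l, hfi l⟩)
    have hfinal := hV F x' y' m1 (m2.trans hfinK) m3 (m4 G hne)
    have g1 : ∑ l, (((f l).natDegree - 3) / 2 : ℕ) * hh (x' l) =
        (r : ℝ) * hh (x i) + (r : ℝ) * hh (x (i + j)) + c₁ := by
      have := hsum (x i) (x (i + j)) (fun l => ((((f l).natDegree - 3) / 2 : ℕ) : ℝ))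
      simp only [m5]
      rw [this, ← hc₁, ← hrep]
    have g2 : ∑ l, hh (x' l) = hh (x i) + hh (x (i + j)) + c₂ := by
      have := hsum (x i) (x (i + j)) (fun _ => 1)
      simp only [one_mul] at this
      simp only [m5]
      rw [this, hc₂]
      simp only [one_mul]
    rw [g1, g2] at hfinal
    have g3 := hi' i hi
    rw [div_le_iff₀ hgap] at g3
    have g4 : (hh (x i) + hh (x (i + j))) / (10 * 4 ^ j) / 2 =
        (hh (x i) + hh (x (i + j))) * (1 / (20 * 4 ^ j)) := by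
      have : (4 : ℝ) ^ j ≠ 0 := by positivity
      field_simp
      ring
    have g5 : 0 ≤ hh (x (i + j)) := hh_nonneg _
    have g6 : 0 ≤ hh (x (i + j)) * (1 / (20 * 4 ^ j) - ε) := mul_nonneg g5 hgap.le
    nlinarith
  -- the degree
  set D : ℕ := G.degreeOf i₀ with hD
  have hdeg : ∀ j : ℕ, ε * (20 * 4 ^ j) < 1 → (4 : ℝ) ^ j / 10 ≤ D := by
    intro j hj
    obtain ⟨i', hi'⟩ := hvan j hj
    obtain ⟨C₁, H, hroot⟩ := root_height (bi K i₀ i₁ b G) (bi_ne_zero hb) D
      (natDegree_bi h01 b G)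
    obtain ⟨C₂, hC₂⟩ := hp.grow j
    by_contra hlt
    push Not at hlt
    have hgap : 0 < (4 : ℝ) ^ j / 10 - D := by linarith
    obtain ⟨i₂, hi₂⟩ := hp.tends (|H| + 1 + (|C₁| + |C₂| + 1) / ((4 : ℝ) ^ j / 10 - D))
    set i := max i' i₂ with hi
    have e1 := hi₂ i (le_max_right _ _)
    have e2 := hi' i (le_max_left _ _)
    have hq : 0 ≤ (|C₁| + |C₂| + 1) / ((4 : ℝ) ^ j / 10 - D) := by positivity
    have e3 : H < hh (x i) := by
      have := le_abs_self H
      linarith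
    have e4 := hroot (x i) (x (i + j)) e3 e2
    have e5 := hC₂ i
    have e6 : (|C₁| + |C₂| + 1) / ((4 : ℝ) ^ j / 10 - D) ≤ hh (x i) := by
      have := abs_nonneg H
      linarith
    rw [div_le_iff₀ hgap] at e6
    have := le_abs_self C₁
    have := le_abs_self C₂
    linarith
  rcases le_or_gt 1 (20 * ε) with h1 | h1
  · have : (0 : ℝ) ≤ D := Nat.cast_nonneg _
    nlinarith
  · -- the largest `j`
    have hex : ∃ j : ℕ, 1 ≤ ε * (20 * 4 ^ j) := by
      obtain ⟨j, hj⟩ := pow_unbounded_of_one_lt (1 / ε) (show (1 : ℝ) < 4 by norm_num)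
      rw [div_lt_iff₀ hε] at hj
      have : (0 : ℝ) < 4 ^ j * ε := by positivity
      exact ⟨j, by linarith⟩
    have h2 := Nat.find_spec hex
    have h3 : 0 < Nat.find hex := by
      rcases Nat.eq_zero_or_pos (Nat.find hex) with h | h
      · rw [h] at h2
        simp only [pow_zero, mul_one] at h2
        linarith
      · exact h
    obtain ⟨j, hj⟩ : ∃ j, Nat.find hex = j + 1 := ⟨Nat.find hex - 1, by omega⟩
    have h4 : ε * (20 * 4 ^ j) < 1 := not_le.1 (Nat.find_min hex (by omega))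
    have h5 := hdeg j h4
    rw [hj, pow_succ] at h2
    nlinarith

end Pool.Agent.L0h52.VP
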