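import Pool.Agent.L0h52.VP.Cmp
import Pool.Agent.L0h52.VE.Gen

/-! Pairs of points with small discriminants on every hyperelliptic curve. -/

set_option autoImplicit false

namespace Pool.Agent.L0h52.VP

open NumberField Module Height Polynomial
open Pool.Agent.Y733.VR Pool.Agent.L0h52.VE

theorem eval_pol {L M : Type} [Field L] [Field M] [Algebra L M] (c : L) (T : Finset L) (x : M) :
    ((pol c T).map (algebraMap L M)).eval x = algebraMap L M c * ∏ e ∈ T, (x - algebraMap L M e) := by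
  unfold pol
  simp only [Polynomial.map_mul, Polynomial.map_prod, Polynomial.map_sub, map_X, map_C,
    eval_mul, eval_prod, eval_sub, eval_X, eval_C]

theorem disc_ne {L : Type} [Field L] [CharZero L] {d₁ d₂ d₃ d₄ c₀ c₁ c₂ : L}
    (hs : d₁ + d₂ + d₃ + d₄ = 0) (h0 : c₀ = d₁ * d₂ * d₃ * d₄)
    (h1 : c₁ = -(d₁ * d₂ * d₃ + d₁ * d₂ * d₄ + d₁ * d₃ * d₄ + d₂ * d₃ * d₄))
    (h2 : c₂ = d₁ * d₂ + d₁ * d₃ + d₁ * d₄ + d₂ * d₃ + d₂ * d₄ + d₃ * d₄)
    (n12 : d₁ ≠ d₂) (n13 : d₁ ≠ d₃) (n14 : d₁ ≠ d₄) (n23 : d₂ ≠ d₃) (n24 : d₂ ≠ d₄) (n34 : d₃ ≠ d₄) :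
    (⟨0, c₂, 0, -(4 * c₀), c₁ ^ 2 - 4 * c₀ * c₂⟩ : WeierstrassCurve L).Δ ≠ 0 := by
  have e : (⟨0, c₂, 0, -(4 * c₀), c₁ ^ 2 - 4 * c₀ * c₂⟩ : WeierstrassCurve L).Δ =
      16 * ((d₁ - d₂) * (d₁ - d₃) * (d₁ - d₄) * (d₂ - d₃) * (d₂ - d₄) * (d₃ - d₄)) ^ 2 := by
    have h4 : d₄ = -(d₁ + d₂ + d₃) := by linear_combination hs
    simp only [WeierstrassCurve.Δ, WeierstrassCurve.b₂, WeierstrassCurve.b₄, WeierstrassCurve.b₆,
      WeierstrassCurve.b₈]
    rw [h0, h1, h2, h4]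
    ring
  rw [e]
  have h16 : (16 : L) ≠ 0 := by norm_num
  refine mul_ne_zero h16 (pow_ne_zero _ ?_)
  have := sub_ne_zero.2 n12
  have := sub_ne_zero.2 n13
  have := sub_ne_zero.2 n14
  have := sub_ne_zero.2 n23
  have := sub_ne_zero.2 n24
  have := sub_ne_zero.2 n34
  positivity

/-- odd degree -/
theorem odd_pairs {L : Type} [Field L] [NumberField L] {c : L} (hc : c ≠ 0) (T : Finset L) {t : ℕ}
    (hT : T.card = 2 * t + 5) :
    ∃ (M : Type) (_ : Field M) (_ : NumberField M) (_ : Algebra L M) (x : ℕ → M),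
      Pairs ((pol c T).map (algebraMap L M)) (t + 1) x := by
  classical
  obtain ⟨e₁, he₁⟩ : ∃ e, e ∈ T := Finset.card_pos.1 (by omega)
  set T₁ := T.erase e₁ with hT₁
  have k1 : T₁.card = 2 * t + 4 := by rw [hT₁, Finset.card_erase_of_mem he₁]; omega
  obtain ⟨e₂, he₂⟩ : ∃ e, e ∈ T₁ := Finset.card_pos.1 (by omega)
  set T₂ := T₁.erase e₂ with hT₂
  have k2 : T₂.card = 2 * t + 3 := by rw [hT₂, Finset.card_erase_of_mem he₂]; omega
  obtain ⟨e₃, he₃⟩ : ∃ e, e ∈ T₂ := Finset.card_pos.1 (by omega)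
  set T₃ := T₂.erase e₃ with hT₃
  have k3 : T₃.card = 2 * t + 2 := by rw [hT₃, Finset.card_erase_of_mem he₃]; omega
  obtain ⟨e₄, he₄⟩ : ∃ e, e ∈ T₃ := Finset.card_pos.1 (by omega)
  set T₄ := T₃.erase e₄ with hT₄
  have k4 : T₄.card = 2 * t + 1 := by rw [hT₄, Finset.card_erase_of_mem he₄]; omega
  have m2 := he₂
  have m3 := he₃
  have m4 := he₄
  simp only [hT₁, hT₂, hT₃, Finset.mem_erase] at m2 m3 m4
  obtain ⟨n21, -⟩ := m2
  obtain ⟨n32, n31, -⟩ := m3
  obtain ⟨n43, n42, n41, -⟩ := m4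
  set s := (e₁ + e₂ + e₃ + e₄) / 4 with hs
  have h4 : (4 : L) ≠ 0 := by norm_num
  have hs4 : 4 * s = e₁ + e₂ + e₃ + e₄ := by rw [hs]; field_simp
  set d₁ := e₁ - s with hd₁
  set d₂ := e₂ - s with hd₂
  set d₃ := e₃ - s with hd₃
  set d₄ := e₄ - s with hd₄
  have hsum : d₁ + d₂ + d₃ + d₄ = 0 := by
    rw [hd₁, hd₂, hd₃, hd₄]
    linear_combination -hs4
  set c₀ := d₁ * d₂ * d₃ * d₄ with hc₀
  set c₁ := -(d₁ * d₂ * d₃ + d₁ * d₂ * d₄ + d₁ * d₃ * d₄ + d₂ * d₃ * d₄) with hc₁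
  set c₂ := d₁ * d₂ + d₁ * d₃ + d₁ * d₄ + d₂ * d₃ + d₂ * d₄ + d₃ * d₄ with hc₂
  have hΔ : (⟨0, c₂, 0, -(4 * c₀), c₁ ^ 2 - 4 * c₀ * c₂⟩ : WeierstrassCurve L).Δ ≠ 0 := by
    refine disc_ne hsum hc₀ hc₁ hc₂ ?_ ?_ ?_ ?_ ?_ ?_
    · exact fun h => n21 (sub_left_injective h).symm
    · exact fun h => n31 (sub_left_injective h).symm
    · exact fun h => n41 (sub_left_injective h).symm
    · exact fun h => n32 (sub_left_injective h).symm
    · exact fun h => n42 (sub_left_injective h).symm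
    · exact fun h => n43 (sub_left_injective h).symm
  -- the bound to avoid bad points
  obtain ⟨H₁, hH₁⟩ : ∃ H : ℝ, ∀ e ∈ T, hh e ≤ H := by
    obtain ⟨H, hH⟩ := ((T.finite_toSet).image hh).bddAbove
    exact ⟨H, fun e he => hH ⟨e, he, rfl⟩⟩
  set H₂ : ℝ := 4 * (H₁ + hh s + Real.log 2) +
    ((hh c₀ + hh c₁ + hh c₂ + 3 * Real.log 2) / 2 + 2 * Real.log 2) with hH₂
  obtain ⟨C, M, iF, iN, iA, u, v, hC, huv⟩ := exists_dbl L c₂ (-(4 * c₀)) (c₁ ^ 2 - 4 * c₀ * c₂) hΔ
    (|H₂| + hh c₂)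
  set φ := algebraMap L M with hφ
  have e4 : φ (-(4 * c₀)) = -(4 * φ c₀) := by simp only [map_neg, map_mul, map_ofNat]
  have e6 : φ (c₁ ^ 2 - 4 * c₀ * c₂) = φ c₁ ^ 2 - 4 * φ c₀ * φ c₂ := by
    simp only [map_sub, map_mul, map_ofNat, map_pow]
  rw [e4, e6] at huv
  have hext : ∀ z : L, hh (φ z) = hh z := fun z => hh_ext M z
  have hu : ∀ i, u i + φ c₂ ≠ 0 := by
    intro i h0
    obtain ⟨-, -, h1, -, -, -⟩ := huv i
    have h2 : u i = -φ c₂ := by linear_combination h0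
    rw [h2, hh_neg, hext] at h1
    have := abs_nonneg H₂
    linarith
  have hf : ∀ x : M, ((pol c T).map φ).eval x = ((x - φ s) ^ 4 + φ c₂ * (x - φ s) ^ 2 +
      φ c₁ * (x - φ s) + φ c₀) * ((pol c T₄).map φ).eval x := by
    intro x
    rw [eval_pol, eval_pol, ← Finset.mul_prod_erase T _ he₁, ← Finset.mul_prod_erase T₁ _ he₂,
      ← Finset.mul_prod_erase T₂ _ he₃, ← Finset.mul_prod_erase T₃ _ he₄]
    have f1 : φ e₁ = φ d₁ + φ s := by rw [← map_add, hd₁, sub_add_cancel]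
    have f2 : φ e₂ = φ d₂ + φ s := by rw [← map_add, hd₂, sub_add_cancel]
    have f3 : φ e₃ = φ d₃ + φ s := by rw [← map_add, hd₃, sub_add_cancel]
    have f4 : φ e₄ = φ d₄ + φ s := by rw [← map_add, hd₄, sub_add_cancel]
    have g0 : φ c₀ = φ d₁ * φ d₂ * φ d₃ * φ d₄ := by simp only [hc₀, map_mul]
    have g1 : φ c₁ = -(φ d₁ * φ d₂ * φ d₃ + φ d₁ * φ d₂ * φ d₄ + φ d₁ * φ d₃ * φ d₄ +
        φ d₂ * φ d₃ * φ d₄) := by simp only [hc₁, map_mul, map_add, map_neg]
    have g2 : φ c₂ = φ d₁ * φ d₂ + φ d₁ * φ d₃ + φ d₁ * φ d₄ + φ d₂ * φ d₃ + φ d₂ * φ d₄ +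
        φ d₃ * φ d₄ := by simp only [hc₂, map_mul, map_add]
    have g3 : φ d₄ = -(φ d₁ + φ d₂ + φ d₃) := by
      have := congrArg φ hsum
      rw [map_add, map_add, map_add, map_zero] at this
      linear_combination this
    rw [hφ] at f1 f2 f3 f4 g0 g1 g2 g3 ⊢
    rw [f1, f2, f3, f4, g0, g1, g2, g3]
    ring
  refine ⟨M, iF, iN, iA, fun i => xi (φ c₁) (φ c₂) (u i) (v i) + φ s,
    pairs_of (c₀ := φ c₀) (C := C) hC hf ?_ (fun i => (huv i).1) (fun i => (huv i).2.1) hu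
      (fun i => (huv i).2.2.2.1) (fun i => (huv i).2.2.2.2.1) (fun i => (huv i).2.2.2.2.2) ?_⟩
  · rw [natDegree_map, natDegree_pol hc, k4]
  · intro i h0
    rw [eval_pol] at h0
    rcases mul_eq_zero.1 h0 with h1 | h1
    · exact hc ((map_eq_zero φ).1 h1)
    · obtain ⟨e, he, h2⟩ := Finset.prod_eq_zero_iff.1 h1
      have h3 : xi (φ c₁) (φ c₂) (u i) (v i) = φ (e - s) := by
        rw [map_sub]
        linear_combination h2
      have h4 := hh_u_le (xi_sq (huv i).1 (hu i))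
      rw [h3, hext, hext, hext, hext] at h4
      have h5 := hh_sub_le e s
      have h6 := hH₁ e he
      have h7 := (huv i).2.2.1
      have h8 := le_abs_self H₂
      have h9 := hh_nonneg c₂
      linarith

theorem Pairs.map {K L : Type} [Field K] [NumberField K] [Field L] [NumberField L] [Algebra K L]
    {f : K[X]} {r : ℕ} {x : ℕ → K} (h : Pairs f r x) :
    Pairs (f.map (algebraMap K L)) r (fun i => algebraMap K L (x i)) := by
  have inj := (algebraMap K L).injective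
  refine ⟨fun B => ?_, fun j => ?_, fun j => ?_⟩
  · obtain ⟨i₀, h₀⟩ := h.tends B
    exact ⟨i₀, fun i hi => by rw [hh_ext]; exact h₀ i hi⟩
  · obtain ⟨C, hC⟩ := h.grow j
    exact ⟨C, fun i => by rw [hh_ext, hh_ext]; exact hC i⟩
  · obtain ⟨C, hC⟩ := h.rad j
    refine ⟨C, fun i => ?_⟩
    obtain ⟨δ₀, δ₁, δ₂, s₁, s₂, k0, k1, k2, k3, k4, k5, k6, k7, k8, k9, k10⟩ := hC i
    have ev : ∀ y : K, (f.map (algebraMap K L)).eval (algebraMap K L y) =
        algebraMap K L (f.eval y) := by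
      intro y
      rw [eval_map, eval₂_at_apply]
    refine ⟨algebraMap K L δ₀, algebraMap K L δ₁, algebraMap K L δ₂, algebraMap K L s₁,
      algebraMap K L s₂, (map_ne_zero_iff _ inj).2 k0, (map_ne_zero_iff _ inj).2 k1,
      (map_ne_zero_iff _ inj).2 k2, (map_ne_zero_iff _ inj).2 k3, (map_ne_zero_iff _ inj).2 k4,
      isIntegral_map _ k5, isIntegral_map _ k6, isIntegral_map _ k7, ?_, ?_, ?_⟩
    · rw [ev, k8]
      simp only [map_mul, map_pow]
    · rw [ev, k9]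
      simp only [map_mul, map_pow]
    · rw [ln_ext, ln_ext, ln_ext, hh_ext, hh_ext]
      exact k10

theorem Pairs.inv {K : Type} [Field K] [NumberField K] {f g : K[X]} {r : ℕ} {z : ℕ → K} {ρ : K}
    (hz : ∀ i, z i ≠ 0) (h : Pairs g r z)
    (he : ∀ w : K, w ≠ 0 → g.eval w = f.eval (ρ + w⁻¹) * (w ^ (r + 2)) ^ 2) :
    Pairs f r (fun i => ρ + (z i)⁻¹) := by
  have l2 : 0 ≤ Real.log 2 := Real.log_nonneg (by norm_num)
  have nρ := hh_nonneg ρ
  set E := hh ρ + Real.log 2 with hE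
  have hE0 : 0 ≤ E := by linarith
  have h1 : ∀ i, hh (z i) ≤ hh (ρ + (z i)⁻¹) + E := by
    intro i
    have := hh_sub_le (ρ + (z i)⁻¹) ρ
    rw [add_sub_cancel_left, hh_inv] at this
    linarith
  have h2 : ∀ i, hh (ρ + (z i)⁻¹) ≤ hh (z i) + E := by
    intro i
    have := hh_add_le ρ (z i)⁻¹
    rw [hh_inv] at this
    linarith
  refine ⟨fun B => ?_, fun j => ?_, fun j => ?_⟩
  · obtain ⟨i₀, h₀⟩ := h.tends (B + E)
    exact ⟨i₀, fun i hi => by
      have := h₀ i hi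
      have := h1 i
      show B ≤ hh (ρ + (z i)⁻¹)
      linarith⟩
  · obtain ⟨C, hC⟩ := h.grow j
    refine ⟨C + 4 ^ j * E / 10 + E, fun i => ?_⟩
    show 4 ^ j * hh (ρ + (z i)⁻¹) / 10 ≤ hh (ρ + (z (i + j))⁻¹) + _
    have a1 := hC i
    have a2 := h2 i
    have a3 := h1 (i + j)
    have h4 : (0 : ℝ) < 4 ^ j := by positivity
    have a4 := mul_le_mul_of_nonneg_left a2 h4.le
    linarith
  · obtain ⟨C, hC⟩ := h.rad j
    refine ⟨C + 4 * r * E + 2 * E / (10 * 4 ^ j), fun i => ?_⟩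
    obtain ⟨δ₀, δ₁, δ₂, s₁, s₂, k0, k1, k2, k3, k4, k5, k6, k7, k8, k9, k10⟩ := hC i
    have zp : ∀ i, z i ^ (r + 2) ≠ 0 := fun i => pow_ne_zero _ (hz i)
    refine ⟨δ₀, δ₁, δ₂, s₁ / z i ^ (r + 2), s₂ / z (i + j) ^ (r + 2), k0, k1, k2,
      div_ne_zero k3 (zp _), div_ne_zero k4 (zp _), k5, k6, k7, ?_, ?_, ?_⟩
    · show f.eval (ρ + (z i)⁻¹) = _
      have e1 := he (z i) (hz i)
      rw [k8] at e1
      rw [div_pow, ← mul_div_assoc, e1]
      have := zp i
      field_simp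
    · show f.eval (ρ + (z (i + j))⁻¹) = _
      have e1 := he (z (i + j)) (hz _)
      rw [k9] at e1
      rw [div_pow, ← mul_div_assoc, e1]
      have := zp (i + j)
      field_simp
    · show _ ≤ 2 * (r : ℝ) * (hh (ρ + (z i)⁻¹) + hh (ρ + (z (i + j))⁻¹)) -
        (hh (ρ + (z i)⁻¹) + hh (ρ + (z (i + j))⁻¹)) / (10 * 4 ^ j) + _
      have a1 := h1 i
      have a2 := h1 (i + j)
      have a3 := h2 i
      have a4 := h2 (i + j)
      have hr : (0 : ℝ) ≤ 2 * r := by positivity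
      have b1 := mul_le_mul_of_nonneg_left (add_le_add a1 a2) hr
      have b2 : (hh (ρ + (z i)⁻¹) + hh (ρ + (z (i + j))⁻¹)) / (10 * 4 ^ j) ≤
          (hh (z i) + hh (z (i + j))) / (10 * 4 ^ j) + 2 * E / (10 * 4 ^ j) := by
        rw [← add_div]
        exact div_le_div_of_nonneg_right (by linarith) (by positivity)
      linarith

/-- a shifted sequence -/
theorem Pairs.shift {K : Type} [Field K] [NumberField K] {f : K[X]} {r : ℕ} {x : ℕ → K}
    (h : Pairs f r x) (m : ℕ) : Pairs f r (fun i => x (i + m)) := by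
  refine ⟨fun B => ?_, fun j => ?_, fun j => ?_⟩
  · obtain ⟨i₀, h₀⟩ := h.tends B
    exact ⟨i₀, fun i hi => h₀ _ (by omega)⟩
  · obtain ⟨C, hC⟩ := h.grow j
    refine ⟨C, fun i => ?_⟩
    have := hC (i + m)
    rwa [show i + m + j = i + j + m by omega] at this
  · obtain ⟨C, hC⟩ := h.rad j
    refine ⟨C, fun i => ?_⟩
    have := hC (i + m)
    rwa [show i + m + j = i + j + m by omega] at this

/-- even degree -/
theorem even_pairs {L : Type} [Field L] [NumberField L] {c : L} (hc : c ≠ 0) (T : Finset L) {t : ℕ}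
    (hT : T.card = 2 * t + 6) :
    ∃ (M : Type) (_ : Field M) (_ : NumberField M) (_ : Algebra L M) (x : ℕ → M),
      Pairs ((pol c T).map (algebraMap L M)) (t + 1) x := by
  classical
  obtain ⟨ρ, hρ⟩ : ∃ e, e ∈ T := Finset.card_pos.1 (by omega)
  set T₁ := T.erase ρ with hT₁
  have c1 : T₁.card = 2 * t + 5 := by rw [hT₁, Finset.card_erase_of_mem hρ]; omega
  have hne : ∀ e ∈ T₁, ρ - e ≠ 0 := fun e he => sub_ne_zero.2 (Finset.ne_of_mem_erase he).symm
  set φ : L → L := fun e => -(ρ - e)⁻¹ with hφ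
  have hφi : Function.Injective φ := by
    intro x y hxy
    have h1 := inv_injective (neg_injective hxy)
    linear_combination -h1
  obtain ⟨M, iF, iN, iA, z, hz⟩ := odd_pairs (c := c * ∏ e ∈ T₁, (ρ - e))
    (mul_ne_zero hc (Finset.prod_ne_zero_iff.2 hne)) (T₁.image φ) (t := t)
    (by rw [Finset.card_image_of_injective _ hφi, c1])
  have inj := (algebraMap L M).injective
  set ρ' := algebraMap L M ρ with hρ'
  have key : ∀ w : M, w ≠ 0 →
      ((pol (c * ∏ e ∈ T₁, (ρ - e)) (T₁.image φ)).map (algebraMap L M)).eval w =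
      ((pol c T).map (algebraMap L M)).eval (ρ' + w⁻¹) * (w ^ (t + 1 + 2)) ^ 2 := by
    intro w hw
    have e1 : ((pol (c * ∏ e ∈ T₁, (ρ - e)) (T₁.image φ)).map (algebraMap L M)).eval w =
        algebraMap L M c * ∏ e ∈ T₁, (1 + (ρ' - algebraMap L M e) * w) := by
      unfold pol
      rw [Finset.prod_image fun x _ y _ h => hφi h]
      simp only [Polynomial.map_mul, Polynomial.map_prod, Polynomial.map_sub, map_X, map_C,
        eval_mul, eval_prod, eval_sub, eval_X, eval_C, map_mul, map_prod, map_sub]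
      rw [mul_assoc, ← Finset.prod_mul_distrib]
      congr 1
      refine Finset.prod_congr rfl fun e he => ?_
      have h3 : ρ' - algebraMap L M e ≠ 0 := by
        rw [hρ', ← map_sub]
        exact (map_ne_zero_iff _ inj).2 (hne e he)
      rw [hφ]
      simp only [map_neg, map_inv₀, map_sub]
      rw [← hρ']
      field_simp
      ring
    have e2 : ((pol c T).map (algebraMap L M)).eval (ρ' + w⁻¹) =
        algebraMap L M c * (w⁻¹ * ∏ e ∈ T₁, ((1 + (ρ' - algebraMap L M e) * w) * w⁻¹)) := by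
      unfold pol
      rw [← Finset.mul_prod_erase T _ hρ, ← hT₁]
      simp only [Polynomial.map_mul, Polynomial.map_prod, Polynomial.map_sub, map_X, map_C,
        eval_mul, eval_prod, eval_sub, eval_X, eval_C]
      rw [← hρ', add_sub_cancel_left]
      congr 2
      refine Finset.prod_congr rfl fun e he => ?_
      field_simp
      ring
    rw [e1, e2, Finset.prod_mul_distrib, Finset.prod_const, c1]
    have e3 : (w ^ (t + 1 + 2)) ^ 2 = w * w ^ (2 * t + 5) := by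
      rw [← pow_mul, ← pow_succ']
      congr 1
      ring
    rw [e3]
    have h5 : w⁻¹ ^ (2 * t + 5) * w ^ (2 * t + 5) = 1 := by
      rw [← mul_pow, inv_mul_cancel₀ hw, one_pow]
    have h6 : w⁻¹ * w = 1 := inv_mul_cancel₀ hw
    set P := ∏ e ∈ T₁, (1 + (ρ' - algebraMap L M e) * w)
    linear_combination (-(algebraMap L M c * P)) * h5 -
      algebraMap L M c * P * (w⁻¹ ^ (2 * t + 5) * w ^ (2 * t + 5)) * h6
  obtain ⟨i₀, hi₀⟩ := hz.tends 1
  have hz' : ∀ i, z (i + i₀) ≠ 0 := by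
    intro i h0
    have h1 := hi₀ (i + i₀) (by omega)
    rw [h0] at h1
    have h2 : hh (0 : M) = 0 := by
      unfold hh
      rw [logHeight₁_zero, zero_div]
    linarith
  exact ⟨M, iF, iN, iA, fun i => ρ' + (z (i + i₀))⁻¹, (hz.shift i₀).inv hz' key⟩

/-- **pairs of points on every hyperelliptic curve** -/
theorem exists_pairs {K : Type} [Field K] [NumberField K] (f : K[X]) (hf : f.Separable)
    (hd : 5 ≤ f.natDegree) :
    ∃ (M : Type) (_ : Field M) (_ : NumberField M) (_ : Algebra K M) (x : ℕ → M),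
      Pairs (f.map (algebraMap K M)) ((f.natDegree - 3) / 2) x := by
  classical
  have hf0 : f ≠ 0 := hf.ne_zero
  have hfd : FiniteDimensional K f.SplittingField := inferInstance
  have hNF : NumberField f.SplittingField := NumberField.of_module_finite K f.SplittingField
  set L := f.SplittingField with hL
  have hspl : (f.map (algebraMap K L)).Splits := SplittingField.splits f
  set c := algebraMap K L f.leadingCoeff with hc
  have hc0 : c ≠ 0 := (map_ne_zero_iff _ (algebraMap K L).injective).2 (leadingCoeff_ne_zero.2 hf0)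
  have hnd : (f.map (algebraMap K L)).roots.Nodup := nodup_roots hf.map
  set T := (f.map (algebraMap K L)).roots.toFinset with hT
  have hcard : T.card = f.natDegree := by
    rw [hT, Multiset.toFinset_card_of_nodup hnd, ← hspl.natDegree_eq_card_roots, natDegree_map]
  have hpol : f.map (algebraMap K L) = pol c T := by
    have h1 := hspl.eq_prod_roots
    rw [leadingCoeff_map, ← hc] at h1
    rw [h1]
    unfold pol
    congr 1
    rw [Finset.prod, hT, Multiset.toFinset_val, hnd.dedup]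
  have main : ∃ (M : Type) (_ : Field M) (_ : NumberField M) (_ : Algebra L M) (x : ℕ → M),
      Pairs ((pol c T).map (algebraMap L M)) ((f.natDegree - 3) / 2) x := by
    rcases Nat.even_or_odd f.natDegree with he | ho
    · obtain ⟨k, hk⟩ := he
      have h1 : (f.natDegree - 3) / 2 = (k - 3) + 1 := by omega
      rw [h1]
      exact even_pairs hc0 T (by rw [hcard]; omega)
    · obtain ⟨k, hk⟩ := ho
      have h1 : (f.natDegree - 3) / 2 = (k - 2) + 1 := by omega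
      rw [h1]
      exact odd_pairs hc0 T (by rw [hcard]; omega)
  obtain ⟨M, iF, iN, iA, x, h2⟩ := main
  let _ : Algebra K M := ((algebraMap L M).comp (algebraMap K L)).toAlgebra
  refine ⟨M, iF, iN, inferInstance, x, ?_⟩
  rw [← hpol, Polynomial.map_map] at h2
  exact h2

end Pool.Agent.L0h52.VP
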