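import Pool.Agent.L0h52.VP.Rep2
import Pool.Agent.L0h52.VE.Core

/-! The elliptic curve of a quartic polynomial: identities and local estimates. -/

set_option autoImplicit false

namespace Pool.Agent.L0h52.VP

open NumberField Module Height Real
open Pool.Agent.Y733.VR Pool.Agent.L0h52.VE

section alg
variable {F : Type} [Field F]

/-- the cubic polynomial -/
def phi (a₂ a₄ a₆ u : F) : F := u ^ 3 + a₂ * u ^ 2 + a₄ * u + a₆

/-- the `u`-coordinate of the double -/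
def dU (a₂ a₄ a₆ u : F) : F :=
  (u ^ 4 - 2 * a₄ * u ^ 2 - 8 * a₆ * u + (a₄ ^ 2 - 4 * a₂ * a₆)) / (4 * phi a₂ a₄ a₆ u)

/-- the `v`-coordinate of the double -/
def dV (a₂ a₄ a₆ u v : F) : F :=
  (3 * u ^ 2 + 2 * a₂ * u + a₄) / (2 * v) * (u - dU a₂ a₄ a₆ u) - v

theorem dU_eq [CharZero F] {a₂ a₄ a₆ u v : F} (h : v ^ 2 = phi a₂ a₄ a₆ u) (hv : v ≠ 0) :
    dU a₂ a₄ a₆ u = ((3 * u ^ 2 + 2 * a₂ * u + a₄) / (2 * v)) ^ 2 - a₂ - 2 * u := by
  unfold dU
  rw [← h, div_pow]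
  have h2 : (2 : F) ≠ 0 := two_ne_zero
  have e : (3 * u ^ 2 + 2 * a₂ * u + a₄) ^ 2 = (u ^ 4 - 2 * a₄ * u ^ 2 - 8 * a₆ * u +
      (a₄ ^ 2 - 4 * a₂ * a₆)) + (a₂ + 2 * u) * (4 * v ^ 2) := by
    rw [h]
    unfold phi
    ring
  rw [e]
  field_simp
  ring

theorem dV_sq [CharZero F] {a₂ a₄ a₆ u v : F} (h : v ^ 2 = phi a₂ a₄ a₆ u) (hv : v ≠ 0) :
    dV a₂ a₄ a₆ u v ^ 2 = phi a₂ a₄ a₆ (dU a₂ a₄ a₆ u) := by
  have h1 := dU_eq h hv
  unfold dV
  set l : F := (3 * u ^ 2 + 2 * a₂ * u + a₄) / (2 * v) with hl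
  have hl' : 2 * v * l = 3 * u ^ 2 + 2 * a₂ * u + a₄ := by
    rw [hl]
    field_simp
  set U := dU a₂ a₄ a₆ u with hU
  clear_value U l
  unfold phi at h ⊢
  -- the tangent line meets the curve in `u`, `u`, `U`
  have hUe : l ^ 2 = U + a₂ + 2 * u := by rw [h1]; ring
  have key : U ^ 3 + a₂ * U ^ 2 + a₄ * U + a₆ - (l * (u - U) - v) ^ 2 =
      (U - u) ^ 2 * (U + 2 * u + a₂ - l ^ 2) + (U - u) * (3 * u ^ 2 + 2 * a₂ * u + a₄ - 2 * v * l) +
        (u ^ 3 + a₂ * u ^ 2 + a₄ * u + a₆ - v ^ 2) := by ring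
  rw [hUe, hl', h] at key
  linear_combination -key

/-- the function on the curve with simple poles at the origin and at a second point -/
def xi (c₁ c₂ u v : F) : F := (v - c₁) / (2 * (u + c₂))

theorem xi_rel [CharZero F] {c₀ c₁ c₂ u v : F}
    (h : v ^ 2 = phi c₂ (-(4 * c₀)) (c₁ ^ 2 - 4 * c₀ * c₂) u) (hu : u + c₂ ≠ 0) :
    u ^ 2 = 4 * (u + c₂) * xi c₁ c₂ u v ^ 2 + 4 * c₁ * xi c₁ c₂ u v + 4 * c₀ := by
  set x := xi c₁ c₂ u v with hx
  have h2 : (2 : F) ≠ 0 := two_ne_zero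
  have e : 2 * (u + c₂) * x = v - c₁ := by
    rw [hx]
    unfold xi
    field_simp
  have e2 : v = 2 * (u + c₂) * x + c₁ := by rw [e]; ring
  unfold phi at h
  rw [e2] at h
  refine mul_left_cancel₀ hu ?_
  linear_combination -h

theorem xi_sq [CharZero F] {c₀ c₁ c₂ u v : F}
    (h : v ^ 2 = phi c₂ (-(4 * c₀)) (c₁ ^ 2 - 4 * c₀ * c₂) u) (hu : u + c₂ ≠ 0) :
    (u / 2 - xi c₁ c₂ u v ^ 2) ^ 2 =
      xi c₁ c₂ u v ^ 4 + c₂ * xi c₁ c₂ u v ^ 2 + c₁ * xi c₁ c₂ u v + c₀ := by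
  have h1 := xi_rel h hu
  have h2 : (2 : F) ≠ 0 := two_ne_zero
  field_simp
  linear_combination h1

end alg

section loc
variable {K : Type} [Field K] [NumberField K]

/-- ultrametric inequality for four terms -/
theorem pl_add4 (v : FinitePlace K) {a b c d : K} {B : ℝ} (ha : v a ≤ B) (hb : v b ≤ B)
    (hc : v c ≤ B) (hd : v d ≤ B) : v (a + b + c + d) ≤ B :=
  (FinitePlace.add_le v _ _).trans (max_le ((FinitePlace.add_le v _ _).trans
    (max_le ((FinitePlace.add_le v _ _).trans (max_le ha hb)) hc)) hd)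

/-- the denominator of `u` divides the square of the denominator of `ξ` -/
theorem loc_xi (v : FinitePlace K) {c₀ c₁ c₂ u ξ b : K} {A : ℝ} (hA : 1 ≤ A) (h0 : v c₀ ≤ A)
    (h1 : v c₁ ≤ A) (h2 : v c₂ ≤ A) (hb : v b ≤ 1) (hx : v (ξ * b) ≤ A)
    (h : u ^ 2 = 4 * (u + c₂) * ξ ^ 2 + 4 * c₁ * ξ + 4 * c₀) : v (u * b ^ 2) ≤ A ^ 2 := by
  have h4 : v (4 : K) ≤ 1 := by
    have := pl_natCast_le v 4
    exact_mod_cast this
  have n4 := apply_nonneg v (4 : K)
  have nb := apply_nonneg v b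
  have nx := apply_nonneg v (ξ * b)
  have nu := apply_nonneg v (u * b ^ 2)
  by_contra hcon
  push Not at hcon
  have e : (u * b ^ 2) ^ 2 = 4 * (ξ * b) ^ 2 * (u * b ^ 2) + 4 * c₂ * (ξ * b) ^ 2 * b ^ 2 +
      4 * c₁ * (ξ * b) * b ^ 3 + 4 * c₀ * b ^ 4 := by
    have : (u * b ^ 2) ^ 2 = u ^ 2 * b ^ 4 := by ring
    rw [this, h]
    ring
  set T := v (u * b ^ 2) with hT
  have hA0 : 0 ≤ A := by linarith
  have hA2 : A ≤ A ^ 2 := by nlinarith
  have hA3 : A ^ 2 ≤ A ^ 3 := by nlinarith [sq_nonneg A]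
  have hAT : A ^ 3 ≤ A ^ 2 * T := by nlinarith [sq_nonneg A]
  have p1 : ∀ n : ℕ, v b ^ n ≤ 1 := fun n => pow_le_one₀ nb hb
  have hx2 : v (ξ * b) ^ 2 ≤ A ^ 2 := pow_le_pow_left₀ nx hx 2
  have k1 : v (4 * (ξ * b) ^ 2 * (u * b ^ 2)) ≤ A ^ 2 * T := by
    rw [map_mul, map_mul, map_pow]
    have : v 4 * v (ξ * b) ^ 2 ≤ 1 * A ^ 2 := mul_le_mul h4 hx2 (by positivity) zero_le_one
    rw [one_mul] at this
    exact mul_le_mul_of_nonneg_right this nu
  have k2 : v (4 * c₂ * (ξ * b) ^ 2 * b ^ 2) ≤ A ^ 2 * T := by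
    rw [map_mul, map_mul, map_mul, map_pow, map_pow]
    calc v 4 * v c₂ * v (ξ * b) ^ 2 * v b ^ 2 ≤ 1 * A * A ^ 2 * 1 := by
          gcongr
          · exact p1 2
      _ = A ^ 3 := by ring
      _ ≤ _ := hAT
  have k3 : v (4 * c₁ * (ξ * b) * b ^ 3) ≤ A ^ 2 * T := by
    rw [map_mul, map_mul, map_mul, map_pow]
    calc v 4 * v c₁ * v (ξ * b) * v b ^ 3 ≤ 1 * A * A * 1 := by
          gcongr
          · exact p1 3
      _ = A ^ 2 := by ring
      _ ≤ _ := hA3.trans hAT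
  have k4 : v (4 * c₀ * b ^ 4) ≤ A ^ 2 * T := by
    rw [map_mul, map_mul, map_pow]
    calc v 4 * v c₀ * v b ^ 4 ≤ 1 * A * 1 := by
          gcongr
          · exact p1 4
      _ = A := by ring
      _ ≤ _ := (hA2.trans hA3).trans hAT
  have k5 := pl_add4 v k1 k2 k3 k4
  rw [← e, map_pow, ← hT] at k5
  nlinarith

/-- `u` is integral over the double -/
theorem loc_dU (v : FinitePlace K) {a₂ a₄ a₆ u : K} {A : ℝ} (hA : 1 ≤ A) (h2 : v a₂ ≤ A)
    (h4 : v a₄ ≤ A) (h6 : v a₆ ≤ A) (hφ : phi a₂ a₄ a₆ u ≠ 0) :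
    v u ≤ A * max 1 (v (dU a₂ a₄ a₆ u)) := by
  set U := dU a₂ a₄ a₆ u with hU
  have e : u ^ 4 = 4 * U * (u ^ 3 + a₂ * u ^ 2) + 4 * U * (a₄ * u + a₆) +
      (2 * a₄ * u ^ 2 + 8 * a₆ * u) + (-(a₄ ^ 2 - 4 * a₂ * a₆)) := by
    have h1 : U * (4 * phi a₂ a₄ a₆ u) =
        u ^ 4 - 2 * a₄ * u ^ 2 - 8 * a₆ * u + (a₄ ^ 2 - 4 * a₂ * a₆) := by
      rw [hU]
      unfold dU
      have : (4 : K) ≠ 0 := by norm_num
      field_simp
    unfold phi at h1
    linear_combination -h1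
  have c : ∀ n : ℕ, v (n : K) ≤ 1 := pl_natCast_le v
  have c2 : v (2 : K) ≤ 1 := by exact_mod_cast c 2
  have c4 : v (4 : K) ≤ 1 := by exact_mod_cast c 4
  have c8 : v (8 : K) ≤ 1 := by exact_mod_cast c 8
  have n2 := apply_nonneg v a₂
  have n4 := apply_nonneg v a₄
  have n6 := apply_nonneg v a₆
  have nu := apply_nonneg v u
  have nU := apply_nonneg v U
  have m2 := apply_nonneg v (2 : K)
  have m4 := apply_nonneg v (4 : K)
  have m8 := apply_nonneg v (8 : K)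
  set R := max 1 (v U) with hR
  have hR1 : 1 ≤ R := le_max_left _ _
  have hUR : v U ≤ R := le_max_right _ _
  by_contra hcon
  push Not at hcon
  set T := v u with hT
  have hAR : 1 ≤ A * R := by nlinarith
  have hT1 : 1 < T := lt_of_le_of_lt hAR hcon
  have hA0 : 0 ≤ A := by linarith
  have hR0 : 0 ≤ R := by linarith
  have hRT : R < T := lt_of_le_of_lt (by nlinarith) hcon
  have hAT : A < T := lt_of_le_of_lt (by nlinarith) hcon
  have hAT2 : A * R < T := hcon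
  -- bound `B = R T³`
  have B1 : v (4 * U * (u ^ 3 + a₂ * u ^ 2)) ≤ R * T ^ 3 := by
    rw [map_mul, map_mul]
    have h1 : v (u ^ 3 + a₂ * u ^ 2) ≤ T ^ 3 := by
      refine (FinitePlace.add_le v _ _).trans (max_le ?_ ?_)
      · rw [map_pow]
      · rw [map_mul, map_pow]
        calc v a₂ * T ^ 2 ≤ T * T ^ 2 := by
              exact mul_le_mul_of_nonneg_right (h2.trans hAT.le) (by positivity)
          _ = T ^ 3 := by ring
    calc v 4 * v U * v (u ^ 3 + a₂ * u ^ 2) ≤ 1 * R * T ^ 3 := by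
          gcongr
      _ = _ := by ring
  have B2 : v (4 * U * (a₄ * u + a₆)) ≤ R * T ^ 3 := by
    rw [map_mul, map_mul]
    have h1 : v (a₄ * u + a₆) ≤ T ^ 2 := by
      refine (FinitePlace.add_le v _ _).trans (max_le ?_ ?_)
      · rw [map_mul]
        calc v a₄ * T ≤ T * T := mul_le_mul_of_nonneg_right (h4.trans hAT.le) nu
          _ = T ^ 2 := by ring
      · exact (h6.trans hAT.le).trans (by nlinarith)
    calc v 4 * v U * v (a₄ * u + a₆) ≤ 1 * R * T ^ 2 := by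
          gcongr
      _ ≤ R * T ^ 3 := by
        have : T ^ 2 ≤ T ^ 3 := by nlinarith
        nlinarith
  have B3 : v (2 * a₄ * u ^ 2 + 8 * a₆ * u) ≤ R * T ^ 3 := by
    have h1 : v (2 * a₄ * u ^ 2 + 8 * a₆ * u) ≤ T ^ 3 := by
      refine (FinitePlace.add_le v _ _).trans (max_le ?_ ?_)
      · rw [map_mul, map_mul, map_pow]
        calc v 2 * v a₄ * T ^ 2 ≤ 1 * T * T ^ 2 := by
              gcongr
              exact h4.trans hAT.le
          _ = T ^ 3 := by ring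
      · rw [map_mul, map_mul]
        calc v 8 * v a₆ * T ≤ 1 * T * T := by
              gcongr
              exact h6.trans hAT.le
          _ ≤ T ^ 3 := by nlinarith [mul_nonneg (sq_nonneg T) (sub_nonneg.2 hT1.le)]
    refine h1.trans ?_
    have : 0 ≤ T ^ 3 := by positivity
    nlinarith
  have B4 : v (-(a₄ ^ 2 - 4 * a₂ * a₆)) ≤ R * T ^ 3 := by
    rw [map_neg_eq_map]
    have h1 : v (a₄ ^ 2 - 4 * a₂ * a₆) ≤ T ^ 2 := by
      refine (pl_sub_le v _ _).trans (max_le ?_ ?_)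
      · rw [map_pow]
        exact pow_le_pow_left₀ n4 (h4.trans hAT.le) 2
      · rw [map_mul, map_mul]
        calc v 4 * v a₂ * v a₆ ≤ 1 * T * T := by
              gcongr
              · exact h2.trans hAT.le
              · exact h6.trans hAT.le
          _ = T ^ 2 := by ring
    refine h1.trans ?_
    have h5 : T ^ 2 ≤ T ^ 3 := by nlinarith
    have : 0 ≤ T ^ 3 := by positivity
    nlinarith
  have k5 := pl_add4 v B1 B2 B3 B4
  rw [← e, map_pow, ← hT] at k5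
  have : 0 < T ^ 3 := by positivity
  nlinarith

/-- the estimate at an infinite place -/
theorem inf_xi (v : InfinitePlace K) {c₀ c₁ c₂ s u x : K}
    (h : u ^ 2 = 4 * (u + c₂) * (x - s) ^ 2 + 4 * c₁ * (x - s) + 4 * c₀) :
    v u ≤ 4 * (1 + v c₀ + v c₁ + v c₂) * (1 + v s) ^ 2 * (max 1 (v x)) ^ 2 := by
  have n0 := apply_nonneg v c₀
  have n1 := apply_nonneg v c₁
  have n2 := apply_nonneg v c₂
  have ns := apply_nonneg v s
  have nu := apply_nonneg v u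
  set m := max 1 (v x) with hm
  have hm1 : 1 ≤ m := le_max_left _ _
  set S := (1 + v s) * m with hS
  have hxs : v (x - s) ≤ S := by
    have h1 : v (x - s) ≤ v x + v s := by
      have := v.1.sub_le_add x s
      exact this
    have h2 : v x ≤ m := le_max_right _ _
    nlinarith
  have hS1 : 1 ≤ S := by nlinarith
  have nxs := apply_nonneg v (x - s)
  have h4 : v (4 : K) = 4 := by
    rw [← InfinitePlace.norm_embedding_eq v, map_ofNat]
    norm_num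
  have hT : v u ^ 2 ≤ 4 * S ^ 2 * v u + 4 * (v c₀ + v c₁ + v c₂) * S ^ 2 := by
    have h5 : v (u ^ 2) ≤ v (4 * (u + c₂) * (x - s) ^ 2) + v (4 * c₁ * (x - s)) + v (4 * c₀) := by
      rw [h]
      exact (v.1.add_le _ _).trans (add_le_add_left (v.1.add_le _ _) _)
    rw [map_pow] at h5
    simp only [map_mul, map_pow, h4] at h5
    have h6 : v (u + c₂) ≤ v u + v c₂ := v.1.add_le _ _
    have h7 : v (x - s) ^ 2 ≤ S ^ 2 := pow_le_pow_left₀ nxs hxs 2
    have h8 : 4 * v (u + c₂) * v (x - s) ^ 2 ≤ 4 * (v u + v c₂) * S ^ 2 := by gcongr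
    have h9 : 4 * v c₁ * v (x - s) ≤ 4 * v c₁ * S ^ 2 := by
      have : v (x - s) ≤ S ^ 2 := by nlinarith
      gcongr
    have h10 : 4 * v c₀ ≤ 4 * v c₀ * S ^ 2 := by
      have : 1 ≤ S ^ 2 := by nlinarith
      nlinarith
    nlinarith
  have hgoal : v u ≤ 4 * (1 + v c₀ + v c₁ + v c₂) * S ^ 2 := by
    have hS2 : 1 ≤ S ^ 2 := by nlinarith
    rcases le_total (v u) 1 with h1 | h1
    · nlinarith
    · have h5 : v u * v u ≤ (4 * (1 + v c₀ + v c₁ + v c₂) * S ^ 2) * v u := by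
        have : 4 * (v c₀ + v c₁ + v c₂) * S ^ 2 ≤ 4 * (v c₀ + v c₁ + v c₂) * S ^ 2 * v u := by
          have : 0 ≤ 4 * (v c₀ + v c₁ + v c₂) * S ^ 2 := by positivity
          nlinarith
        nlinarith
      exact le_of_mul_le_mul_right h5 (by linarith)
  calc v u ≤ _ := hgoal
    _ = _ := by rw [hS]; ring

end loc

end Pool.Agent.L0h52.VP
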