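import Pool.Agent.L0h52.VE.Rep
import Pool.Agent.L0h52.VE.Poly

/-! Integral homogeneous coordinates, the norm of the denominator and the infinite places. -/

set_option autoImplicit false

namespace Pool.Agent.L0h52.VP

open NumberField Module Height Ideal Real
open Pool.Agent.Y733.VR Pool.Agent.L0h52.VE

variable {K : Type} [Field K] [NumberField K]

theorem mulHeight_pair (a z : 𝓞 K) (hz : z ≠ 0) :
    mulHeight₁ ((a : K) / (z : K)) * (absNorm (span (Set.range ![a, z])) : ℝ) =
      ∏ v : InfinitePlace K, (max (v (a : K)) (v (z : K))) ^ v.mult := by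
  have hne : (fun i => ((![a, z] i : 𝓞 K) : K)) ≠ 0 := by
    intro h
    have := congrFun h 1
    simp at this
    exact hz this
  rw [mulHeight₁_div_eq_mulHeight]
  have h4 : (![(a : K), (z : K)] : Fin 2 → K) = fun i => ((![a, z] i : 𝓞 K) : K) := by
    funext i
    fin_cases i <;> simp
  have h5 := NumberField.absNorm_mul_finprod_finitePlace_eq_one
    (x := ![a, z]) (K := K) (by
      intro h
      apply hne
      rw [h]
      funext i
      simp)
  rw [h4, NumberField.mulHeight_eq hne, mul_assoc, mul_comm (∏ᶠ v : FinitePlace K, _), h5, mul_one]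
  refine Finset.prod_congr rfl fun v _ => ?_
  congr 1
  rw [iSup_two]
  simp

/-- the infinite part of the height -/
noncomputable def hi (x : K) : ℝ := (∑ v : InfinitePlace K, v.mult * log⁺ (v x)) / finrank ℚ K

theorem hi_nonneg (x : K) : 0 ≤ hi x :=
  div_nonneg (Finset.sum_nonneg fun _ _ => mul_nonneg (Nat.cast_nonneg _) posLog_nonneg) deg_pos.le

omit [NumberField K] in
theorem max_eq {v : InfinitePlace K} (x z : K) :
    max (v (x * z)) (v z) = v z * max (v x) 1 := by
  rw [map_mul, mul_max_of_nonneg _ _ (apply_nonneg v z), mul_one, mul_comm]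

theorem log_prod_max (x z : K) (hz : z ≠ 0) :
    Real.log (∏ v : InfinitePlace K, (max (v (x * z)) (v z)) ^ v.mult) / finrank ℚ K =
      ln z + hi x := by
  have h1 : ∏ v : InfinitePlace K, (max (v (x * z)) (v z)) ^ v.mult =
      |(Algebra.norm ℚ z : ℝ)| * ∏ v : InfinitePlace K, (max (v x) 1) ^ v.mult := by
    have h2 : |(Algebra.norm ℚ z : ℝ)| = ∏ v : InfinitePlace K, (v z) ^ v.mult := by
      rw [InfinitePlace.prod_eq_abs_norm]
      push_cast
      rfl
    rw [h2, ← Finset.prod_mul_distrib]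
    refine Finset.prod_congr rfl fun v _ => ?_
    rw [max_eq x z, mul_pow]
  have hpos : ∀ v : InfinitePlace K, (0 : ℝ) < max (v x) 1 := fun v => lt_max_of_lt_right one_pos
  rw [h1, Real.log_mul (abs_ne_zero.2 (norm_ne z hz))
    (Finset.prod_ne_zero_iff.2 fun v _ => pow_ne_zero _ (hpos v).ne'), add_div]
  unfold ln hi
  congr 2
  rw [Real.log_prod fun v _ => pow_ne_zero _ (hpos v).ne']
  refine Finset.sum_congr rfl fun v _ => ?_
  rw [Real.log_pow, posLog_eq_log_max_one (apply_nonneg v x), max_comm]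

/-- the finite part of the height is at most the norm of any denominator -/
theorem hh_le_ln (u y : K) (hy : IsIntegral ℤ y) (hy0 : y ≠ 0) (hyu : IsIntegral ℤ (u * y)) :
    hh u ≤ ln y + hi u := by
  set z : 𝓞 K := ⟨y, hy⟩ with hz
  set a : 𝓞 K := ⟨u * y, hyu⟩ with ha
  have hz0 : z ≠ 0 := by
    intro h
    apply hy0
    have h' : (z : K) = 0 := by rw [h]; exact map_zero (algebraMap (𝓞 K) K)
    exact h'
  have h1 := mulHeight_pair a z hz0
  have e1 : (a : K) = u * y := rfl
  have e2 : (z : K) = y := rfl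
  rw [e1, e2, mul_div_assoc, div_self hy0, mul_one] at h1
  have hI : (1 : ℝ) ≤ (absNorm (span (Set.range ![a, z])) : ℝ) := by
    have : absNorm (span (Set.range ![a, z])) ≠ 0 := by
      rw [Ne, absNorm_eq_zero_iff]
      intro h
      have hm : z ∈ span (Set.range ![a, z]) := Ideal.subset_span ⟨1, rfl⟩
      rw [h, Ideal.mem_bot] at hm
      exact hz0 hm
    exact_mod_cast Nat.one_le_iff_ne_zero.2 this
  have h2 : mulHeight₁ u ≤ ∏ v : InfinitePlace K, (max (v (u * y)) (v y)) ^ v.mult := by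
    rw [← h1]
    have : 0 ≤ mulHeight₁ u := (zero_lt_one.trans_le (one_le_mulHeight₁ u)).le
    nlinarith
  rw [← log_prod_max u y hy0]
  unfold hh
  refine div_le_div_of_nonneg_right ?_ deg_pos.le
  rw [logHeight₁_eq_log_mulHeight₁]
  exact Real.log_le_log (zero_lt_one.trans_le (one_le_mulHeight₁ u)) h2

/-- integral coordinates with a fixed natural number in the ideal they generate -/
theorem exists_rep2 (K : Type) [Field K] [NumberField K] : ∃ (C : ℝ) (n : ℕ), 0 < C ∧ n ≠ 0 ∧
    ∀ x : K, ∃ X Z α β : 𝓞 K, Z ≠ 0 ∧ x * (Z : K) = X ∧ α * X + β * Z = n ∧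
      (∏ v : InfinitePlace K, (max (v (X : K)) (v (Z : K))) ^ v.mult ≤ C * mulHeight₁ x) ∧
      ln (Z : K) + hi x ≤ hh x + Real.log C / finrank ℚ K := by
  obtain ⟨C, hC, h⟩ := exists_rep K
  refine ⟨C, (⌊C⌋₊).factorial, hC, Nat.factorial_ne_zero _, fun x => ?_⟩
  obtain ⟨X, Z, hZ, hx, hP⟩ := h x
  have hZK : (Z : K) ≠ 0 := by
    intro h0
    exact hZ (by exact_mod_cast h0)
  have h1 := mulHeight_pair X Z hZ
  have e1 : (X : K) / (Z : K) = x := by rw [← hx, mul_div_assoc, div_self hZK, mul_one]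
  rw [e1] at h1
  have hpos : 0 < mulHeight₁ x := zero_lt_one.trans_le (one_le_mulHeight₁ x)
  have h2 : (absNorm (span (Set.range ![X, Z])) : ℝ) ≤ C := by
    rw [← h1, mul_comm] at hP
    exact le_of_mul_le_mul_right hP hpos
  have h3 : absNorm (span (Set.range ![X, Z])) ≤ ⌊C⌋₊ := Nat.le_floor h2
  have h4 : 0 < absNorm (span (Set.range ![X, Z])) := by
    refine Nat.pos_of_ne_zero ?_
    rw [Ne, absNorm_eq_zero_iff]
    intro h
    have hm : Z ∈ span (Set.range ![X, Z]) := Ideal.subset_span ⟨1, rfl⟩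
    rw [h, Ideal.mem_bot] at hm
    exact hZ hm
  have h5 : ((⌊C⌋₊.factorial : ℕ) : 𝓞 K) ∈ span (Set.range ![X, Z]) := by
    obtain ⟨m, hm⟩ := Nat.dvd_factorial h4 h3
    rw [hm]
    push_cast
    exact Ideal.mul_mem_right _ _ (absNorm_mem _)
  have h6 : Set.range ![X, Z] = {X, Z} := by
    rw [Matrix.range_cons, Matrix.range_cons, Matrix.range_empty, Set.union_empty,
      Set.singleton_union]
  rw [h6, mem_span_pair] at h5
  obtain ⟨α, β, hαβ⟩ := h5
  refine ⟨X, Z, α, β, hZ, hx, hαβ, hP, ?_⟩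
  have h7 := log_prod_max x (Z : K) hZK
  rw [hx] at h7
  rw [← h7]
  unfold hh
  rw [← add_div]
  refine div_le_div_of_nonneg_right ?_ deg_pos.le
  have h8 : 0 < ∏ v : InfinitePlace K, (max (v (X : K)) (v (Z : K))) ^ v.mult :=
    Finset.prod_pos fun v _ => pow_pos (lt_max_of_lt_right (v.pos_iff.2 hZK)) _
  have h9 := Real.log_le_log h8 hP
  rw [Real.log_mul hC.ne' hpos.ne', ← logHeight₁_eq_log_mulHeight₁] at h9
  linarith

end Pool.Agent.L0h52.VP
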