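import Pool.Agent.L0h52.VP.Pair

/-! The height of a root of a polynomial with polynomial coefficients. -/

set_option autoImplicit false

namespace Pool.Agent.L0h52.VP

open NumberField Module Height Polynomial
open Pool.Agent.Y733.VR

section
variable {K : Type} [Field K]

/-- homogenisation in degree `D` -/
noncomputable def hom (D : ℕ) (g : K[X]) : MvPolynomial (Fin 2) K :=
  ∑ i ∈ Finset.range (D + 1), MvPolynomial.C (g.coeff i) *
    (MvPolynomial.X 0 ^ i * MvPolynomial.X 1 ^ (D - i))

theorem hom_isHomogeneous (D : ℕ) (g : K[X]) : (hom D g).IsHomogeneous D := by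
  unfold hom
  refine MvPolynomial.IsHomogeneous.sum _ _ _ fun i hi => ?_
  have hi' : i ≤ D := by
    have := Finset.mem_range.1 hi
    omega
  have h1 : (MvPolynomial.X 0 ^ i * MvPolynomial.X 1 ^ (D - i) :
      MvPolynomial (Fin 2) K).IsHomogeneous (i + (D - i)) :=
    (MvPolynomial.isHomogeneous_X_pow _ _).mul (MvPolynomial.isHomogeneous_X_pow _ _)
  rw [Nat.add_sub_cancel' hi'] at h1
  exact h1.C_mul _

theorem eval_hom (D : ℕ) (g : K[X]) (hg : g.natDegree ≤ D) (x : K) :
    (hom D g).eval ![x, 1] = g.eval x := by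
  unfold hom
  rw [map_sum, eval_eq_sum_range' (Nat.lt_succ_of_le hg)]
  refine Finset.sum_congr rfl fun i _ => ?_
  simp

end

variable {K : Type} [Field K] [NumberField K]

/-- **the height of a root** -/
theorem root_height (P : K[X][X]) (hP : P ≠ 0) (D : ℕ) (hD : ∀ n, (P.coeff n).natDegree ≤ D) :
    ∃ C H : ℝ, ∀ x y : K, H < hh x → P.evalEval x y = 0 → hh y ≤ D * hh x + C := by
  classical
  set N := P.natDegree with hN
  set l : K[X] := P.coeff N with hl
  have hl0 : l ≠ 0 := by
    rw [hl, hN, coeff_natDegree]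
    exact leadingCoeff_ne_zero.2 hP
  obtain ⟨H, hH⟩ := ((l.roots.toFinset.finite_toSet).image hh).bddAbove
  have hroot : ∀ x : K, H < hh x → l.eval x ≠ 0 := by
    intro x hx h0
    have : hh x ≤ H := hH ⟨x, by
      rw [Finset.mem_coe, Multiset.mem_toFinset, mem_roots hl0]
      exact h0, rfl⟩
    linarith
  have hsum : ∀ x y : K, P.evalEval x y = ∑ n ∈ Finset.range (N + 1), (P.coeff n).eval x * y ^ n := by
    intro x y
    unfold evalEval
    rw [eval_eq_sum_range (p := P), eval_finsetSum]
    refine Finset.sum_congr rfl fun n _ => ?_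
    simp
  rcases Nat.eq_zero_or_pos N with h0 | hpos
  · refine ⟨0, H, fun x y hx h => ?_⟩
    exfalso
    rw [hsum, h0] at h
    simp only [zero_add, Finset.sum_range_one, pow_zero, mul_one] at h
    rw [h0] at hl
    exact hroot x hx (by rw [hl]; exact h)
  -- the matrix
  set pA : Fin (N + 1) × Fin N → MvPolynomial (Fin 2) K := fun a =>
    if (a.1 : ℕ) < N then (if (a.1 : ℕ) = a.2 then hom D (-l) else 0) else hom D (P.coeff a.2) with hpA
  have hpAh : ∀ a, (pA a).IsHomogeneous D := by
    intro a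
    rw [hpA]
    simp only
    split_ifs
    · exact hom_isHomogeneous _ _
    · exact MvPolynomial.isHomogeneous_zero _ _ _
    · exact hom_isHomogeneous _ _
  set pW : Fin N → MvPolynomial (Fin 2) K := fun m =>
    MvPolynomial.X 0 ^ (m : ℕ) * MvPolynomial.X 1 ^ (N - 1 - (m : ℕ)) with hpW
  have hpWh : ∀ m, (pW m).IsHomogeneous (N - 1) := by
    intro m
    have h1 : (MvPolynomial.X 0 ^ (m : ℕ) * MvPolynomial.X 1 ^ (N - 1 - (m : ℕ)) :
        MvPolynomial (Fin 2) K).IsHomogeneous ((m : ℕ) + (N - 1 - (m : ℕ))) :=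
      (MvPolynomial.isHomogeneous_X_pow _ _).mul (MvPolynomial.isHomogeneous_X_pow _ _)
    have h2 : (m : ℕ) + (N - 1 - (m : ℕ)) = N - 1 := by omega
    rw [h2] at h1
    exact h1
  obtain ⟨C₁, hC₁⟩ := logHeight_eval_le' hpAh
  obtain ⟨C₂, hC₂⟩ := logHeight_eval_le' hpWh
  have : Nonempty (Fin N) := ⟨⟨0, hpos⟩⟩
  set C₃ : ℝ := totalWeight K * Real.log (Nat.card (Fin N)) with hC₃
  refine ⟨(C₁ + C₂ + C₃) / finrank ℚ K, H, fun x y hx h => ?_⟩
  have hlx := hroot x hx
  set A : Fin (N + 1) × Fin N → K := fun a => (pA a).eval ![x, 1] with hA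
  set W : Fin N → K := fun m => y ^ (m : ℕ) with hW
  set V : Fin (N + 1) → K := fun n => y ^ (n : ℕ) with hV
  have e1 := hC₁ ![x, 1]
  have e2 := hC₂ ![y, 1]
  have e3 : (fun m => (pW m).eval ![y, 1]) = W := by
    funext m
    simp [hpW, hW]
  rw [e3, ← logHeight₁_eq_logHeight] at e2
  rw [← logHeight₁_eq_logHeight] at e1
  have e4 : (fun n => ∑ m, A (n, m) * W m) = (-l.eval x) • V := by
    funext n
    show ∑ m, A (n, m) * W m = (-l.eval x) * V n
    by_cases hn : (n : ℕ) < N
    · rw [Finset.sum_eq_single (⟨n, hn⟩ : Fin N)]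
      · have : A (n, ⟨n, hn⟩) = -l.eval x := by
          show (pA (n, ⟨n, hn⟩)).eval ![x, 1] = _
          rw [hpA]
          simp only [if_pos hn, if_true]
          rw [eval_hom D (-l) (by rw [natDegree_neg]; exact hD N) x, eval_neg]
        rw [this]
      · intro m _ hm
        have : A (n, m) = 0 := by
          show (pA (n, m)).eval ![x, 1] = _
          rw [hpA]
          have h5 : ¬ (n : ℕ) = (m : ℕ) := fun h6 => hm (Fin.ext h6.symm)
          simp only [if_pos hn, if_neg h5]
          rw [map_zero]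
        rw [this, zero_mul]
      · intro h6
        exact absurd (Finset.mem_univ _) h6
    · have hnN : (n : ℕ) = N := by
        have := n.2
        omega
      have h5 : ∀ m : Fin N, A (n, m) = (P.coeff m).eval x := by
        intro m
        show (pA (n, m)).eval ![x, 1] = _
        rw [hpA]
        simp only [if_neg hn]
        exact eval_hom D _ (hD _) x
      have h6 : V n = y ^ N := by rw [hV]; simp only [hnN]
      rw [h6]
      have h7 := h
      rw [hsum, Finset.sum_range_succ, ← hl, Finset.sum_range] at h7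
      have h8 : ∑ m, A (n, m) * W m = ∑ m : Fin N, (P.coeff (m : ℕ)).eval x * y ^ (m : ℕ) :=
        Finset.sum_congr rfl fun m _ => by rw [h5]
      rw [h8]
      linear_combination h7
  have e5 := logHeight_linearMap_apply_le A W
  rw [e4, logHeight_smul_eq_logHeight _ (neg_ne_zero.2 hlx)] at e5
  have e6 : N * logHeight₁ y ≤ logHeight V := by
    have h5 := logHeight_comp_le (![⟨N, by omega⟩, 0] : Fin 2 → Fin (N + 1)) V
    have h6 : V ∘ (![⟨N, by omega⟩, 0] : Fin 2 → Fin (N + 1)) = ![y ^ N, 1] := by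
      funext i
      fin_cases i
      · simp [hV]
      · simp [hV]
    rw [h6, ← logHeight₁_eq_logHeight, logHeight₁_pow] at h5
    exact h5
  have e7 : ((N - 1 : ℕ) : ℝ) = N - 1 := by
    rw [Nat.cast_sub hpos]
    norm_num
  rw [e7] at e2
  have hd : (0 : ℝ) < finrank ℚ K := deg_pos
  unfold hh
  rw [mul_div_assoc', ← add_div]
  refine div_le_div_of_nonneg_right ?_ hd.le
  linarith

end Pool.Agent.L0h52.VP
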