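import Pool.Agent.L0h52.VP.Dbl

/-! Shared factors of the radicands of two points. -/

set_option autoImplicit false

namespace Pool.Agent.L0h52.VP

open NumberField Module Height Real Polynomial
open Pool.Agent.Y733.VR Pool.Agent.L0h52.VE

variable {K : Type} [Field K] [NumberField K]

/-- a common denominator -/
theorem exists_nat_int (S : Finset K) : ∃ n : ℕ, n ≠ 0 ∧ ∀ a ∈ S, IsIntegral ℤ ((n : K) * a) := by
  classical
  induction S using Finset.induction_on with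
  | empty => exact ⟨1, one_ne_zero, by simp⟩
  | insert a S _ ih =>
    obtain ⟨n, hn, h⟩ := ih
    obtain ⟨m, hm, b, hb, -⟩ := exists_nat_ne_zero_exists_integer_mul_eq_and_absNorm_span_eq_pow a
    have hb' : IsIntegral ℤ ((m : K) * a) := by
      rw [hb]
      exact b.isIntegral_coe
    refine ⟨m * n, mul_ne_zero hm hn, fun c hc => ?_⟩
    rcases Finset.mem_insert.1 hc with rfl | hc
    · have : ((m * n : ℕ) : K) * c = (n : K) * ((m : K) * c) := by push_cast; ring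
      rw [this]
      exact (isInt_nat n).mul hb'
    · have : ((m * n : ℕ) : K) * c = (m : K) * ((n : K) * c) := by push_cast; ring
      rw [this]
      exact (isInt_nat m).mul (h c hc)

theorem pl_den (v : FinitePlace K) {n : ℕ} (hn : n ≠ 0) {a : K} (h : IsIntegral ℤ ((n : K) * a)) :
    v a ≤ (v (n : K))⁻¹ := by
  have h0 : 0 < v (n : K) := FinitePlace.pos_iff.2 (Nat.cast_ne_zero.2 hn)
  have h1 := place_le_one v h
  rw [map_mul] at h1
  rw [← one_div, le_div_iff₀ h0, mul_comm]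
  exact h1

theorem one_le_inv_pl (v : FinitePlace K) {n : ℕ} (hn : n ≠ 0) : 1 ≤ (v (n : K))⁻¹ := by
  have h0 : 0 < v (n : K) := FinitePlace.pos_iff.2 (Nat.cast_ne_zero.2 hn)
  exact (one_le_inv₀ h0).2 (pl_natCast_le v n)

/-- the relation between the coordinates `u` and `x = ξ + s` -/
def Rel (c₀ c₁ c₂ s u x : K) : Prop :=
  u ^ 2 = 4 * (u + c₂) * (x - s) ^ 2 + 4 * c₁ * (x - s) + 4 * c₀

theorem hi_rel (c₀ c₁ c₂ s : K) : ∃ C : ℝ, ∀ u x : K, Rel c₀ c₁ c₂ s u x → hi u ≤ 2 * hi x + C := by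
  set B : InfinitePlace K → ℝ := fun v => 4 * (1 + v c₀ + v c₁ + v c₂) * (1 + v s) ^ 2 with hB
  have hB1 : ∀ v, 1 ≤ B v := by
    intro v
    have n0 := apply_nonneg v c₀
    have n1 := apply_nonneg v c₁
    have n2 := apply_nonneg v c₂
    have ns := apply_nonneg v s
    have h1 : 1 ≤ (1 + v s) ^ 2 := one_le_pow₀ (by linarith)
    have h2 : 1 ≤ 4 * (1 + v c₀ + v c₁ + v c₂) := by linarith
    rw [hB]
    nlinarith
  refine ⟨(∑ v : InfinitePlace K, v.mult * Real.log (B v)) / finrank ℚ K, fun u x h => ?_⟩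
  unfold hi
  rw [mul_div_assoc', ← add_div]
  refine div_le_div_of_nonneg_right ?_ deg_pos.le
  rw [Finset.mul_sum, ← Finset.sum_add_distrib]
  refine Finset.sum_le_sum fun v _ => ?_
  have h1 := inf_xi v h
  have h2 : log⁺ (v u) ≤ Real.log (B v) + 2 * log⁺ (v x) := by
    rw [posLog_eq_log_max_one (apply_nonneg v u), posLog_eq_log_max_one (apply_nonneg v x)]
    have hm : (0 : ℝ) < max 1 (v x) := lt_max_of_lt_left one_pos
    have hm1 : (1 : ℝ) ≤ max 1 (v x) := le_max_left _ _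
    have hBp : 0 < B v := by linarith [hB1 v]
    have h3 : max 1 (v u) ≤ B v * max 1 (v x) ^ 2 := by
      refine max_le ?_ h1
      have := hB1 v
      nlinarith
    have h4 := Real.log_le_log (lt_max_of_lt_left one_pos) h3
    rw [Real.log_mul hBp.ne' (pow_pos hm 2).ne', Real.log_pow] at h4
    push_cast at h4
    exact h4
  have h3 : (0 : ℝ) ≤ v.mult := Nat.cast_nonneg _
  nlinarith

theorem ln_pow' (x : K) (hx : x ≠ 0) (n : ℕ) : ln (x ^ n) = n * ln x := by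
  induction n with
  | zero =>
    rw [pow_zero]
    unfold ln
    simp
  | succ n ih =>
    rw [pow_succ, ln_mul _ _ (pow_ne_zero _ hx) hx, ih]
    push_cast
    ring

/-- a value of a polynomial of odd degree, up to a square -/
theorem rep_val (q : K[X]) (t : ℕ) (hq : q.natDegree ≤ 2 * t + 1) {C₀ : ℝ} (hC₀ : 0 < C₀) :
    ∃ (N : ℕ) (C : ℝ), N ≠ 0 ∧ ∀ (x : K) (X Z : 𝓞 K), Z ≠ 0 → x * (Z : K) = X →
      (∏ v : InfinitePlace K, (max (v (X : K)) (v (Z : K))) ^ v.mult ≤ C₀ * mulHeight₁ x) →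
      q.eval x ≠ 0 → ∃ δ : 𝓞 K, δ ≠ 0 ∧ q.eval x * ((N : K) * (Z : K) ^ (t + 1)) ^ 2 = δ * (Z : K) ∧
        ln (δ : K) ≤ (2 * t + 1) * hh x + C := by
  obtain ⟨N, hN, C, hC, h⟩ := poly_val q (2 * t + 1) hq
  refine ⟨N, (Real.log C + (2 * t + 1) * Real.log C₀) / finrank ℚ K, hN,
    fun x X Z hZ hx hP hq0 => ?_⟩
  obtain ⟨δ, h1, h2⟩ := h x X Z hx
  have hZK : (Z : K) ≠ 0 := by
    intro h0
    exact hZ (by exact_mod_cast h0)
  have hNK : (N : K) ≠ 0 := Nat.cast_ne_zero.2 hN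
  have hδK : (δ : K) ≠ 0 := by
    rw [h1]
    exact mul_ne_zero (mul_ne_zero (pow_ne_zero _ hNK) (pow_ne_zero _ hZK)) hq0
  refine ⟨δ, ?_, ?_, ?_⟩
  · rintro rfl
    exact hδK (map_zero _)
  · rw [h1]
    ring
  · have hd : (0 : ℝ) < finrank ℚ K := deg_pos
    have hH : 0 < mulHeight₁ x := zero_lt_one.trans_le (one_le_mulHeight₁ x)
    have hP0 : 0 ≤ ∏ v : InfinitePlace K, (max (v (X : K)) (v (Z : K))) ^ v.mult :=
      Finset.prod_nonneg fun v _ => pow_nonneg (le_max_of_le_left (apply_nonneg v _)) _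
    have h3 : |(Algebra.norm ℚ (δ : K) : ℝ)| ≤ C * (C₀ * mulHeight₁ x) ^ (2 * t + 1) :=
      h2.trans (mul_le_mul_of_nonneg_left (pow_le_pow_left₀ hP0 hP _) hC.le)
    have h4 := Real.log_le_log (abs_pos.2 (norm_ne (δ : K) hδK)) h3
    rw [Real.log_mul hC.ne' (pow_pos (mul_pos hC₀ hH) _).ne', Real.log_pow,
      Real.log_mul hC₀.ne' hH.ne', ← logHeight₁_eq_log_mulHeight₁] at h4
    push_cast at h4
    unfold ln hh
    rw [mul_div_assoc', ← add_div]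
    refine div_le_div_of_nonneg_right ?_ hd.le
    linarith

/-- **the savings** -/
theorem save (c₀ c₁ c₂ s : K) (q : K[X]) (t : ℕ) (hq : q.natDegree ≤ 2 * t + 1) (n₁ : ℕ)
    (hn₁ : n₁ ≠ 0) : ∃ C : ℝ, ∀ x₁ x₂ u₁ u₂ : K, Rel c₀ c₁ c₂ s u₁ x₁ → Rel c₀ c₁ c₂ s u₂ x₂ →
      (∀ v : FinitePlace K, v ((n₁ : K) * u₁) ≤ max 1 (v u₂)) → q.eval x₁ ≠ 0 → q.eval x₂ ≠ 0 →
      ∃ δ₀ δ₁ δ₂ s₁ s₂ : K, δ₀ ≠ 0 ∧ δ₁ ≠ 0 ∧ δ₂ ≠ 0 ∧ s₁ ≠ 0 ∧ s₂ ≠ 0 ∧ IsIntegral ℤ δ₀ ∧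
        IsIntegral ℤ δ₁ ∧ IsIntegral ℤ δ₂ ∧ q.eval x₁ = δ₀ * δ₁ * s₁ ^ 2 ∧
        q.eval x₂ = δ₀ * δ₂ * s₂ ^ 2 ∧
        ln δ₀ + ln δ₁ + ln δ₂ ≤ (2 * t + 2) * (hh x₁ + hh x₂) - hh u₁ / 2 + C := by
  classical
  obtain ⟨C₀, n, hC₀, hn, hrep⟩ := exists_rep2 K
  obtain ⟨N, C₁, hN, hval⟩ := rep_val q t hq hC₀
  obtain ⟨n₂, hn₂, hint⟩ := exists_nat_int ({c₀, c₁, c₂, s} : Finset K)
  obtain ⟨C₂, hC₂⟩ := hi_rel c₀ c₁ c₂ s
  have i0 := hint c₀ (by simp)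
  have i1 := hint c₁ (by simp)
  have i2 := hint c₂ (by simp)
  have is := hint s (by simp)
  set M : ℕ := n₁ * n₂ ^ 2 with hM
  have hM0 : M ≠ 0 := mul_ne_zero hn₁ (pow_ne_zero _ hn₂)
  have hnK : (n : K) ≠ 0 := Nat.cast_ne_zero.2 hn
  have hNK : (N : K) ≠ 0 := Nat.cast_ne_zero.2 hN
  have hMK : (M : K) ≠ 0 := Nat.cast_ne_zero.2 hM0
  refine ⟨4 * Real.log n + 2 * (Real.log C₀ / finrank ℚ K) + 2 * C₁ + (C₂ + Real.log M) / 2,
    fun x₁ x₂ u₁ u₂ hr₁ hr₂ hdom hq₁ hq₂ => ?_⟩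
  obtain ⟨a₁, b₁, α₁, β₁, hb₁, hx₁, -, hP₁, hl₁⟩ := hrep x₁
  obtain ⟨a₂, b₂, α₂, β₂, hb₂, hx₂, -, hP₂, hl₂⟩ := hrep x₂
  obtain ⟨d₁, hd₁, he₁, hL₁⟩ := hval x₁ a₁ b₁ hb₁ hx₁ hP₁ hq₁
  obtain ⟨d₂, hd₂, he₂, hL₂⟩ := hval x₂ a₂ b₂ hb₂ hx₂ hP₂ hq₂
  have nz : ∀ z : 𝓞 K, z ≠ 0 → (z : K) ≠ 0 := by
    intro z hz h0
    exact hz (by exact_mod_cast h0)
  have hb₁K := nz b₁ hb₁
  have hb₂K := nz b₂ hb₂
  have hd₁K := nz d₁ hd₁
  have hd₂K := nz d₂ hd₂
  obtain ⟨X, Z, α, β, hZ, hXZ, hαβ, -, -⟩ := hrep ((b₁ : K) / (b₂ : K))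
  have hZK := nz Z hZ
  have hbZ : (b₁ : K) * (Z : K) = (b₂ : K) * (X : K) := by
    rw [← hXZ]
    field_simp
  have hXK : (X : K) ≠ 0 := by
    intro h0
    rw [h0, mul_zero] at hbZ
    exact mul_ne_zero hb₁K hZK hbZ
  have hαβ' : (α : K) * (X : K) + (β : K) * (Z : K) = (n : K) := by
    have := congrArg (fun z : 𝓞 K => (z : K)) hαβ
    simpa using this
  set τ : K := (b₁ : K) / (X : K) with hτ
  have hτ0 : τ ≠ 0 := div_ne_zero hb₁K hXK
  have hτX : τ * (X : K) = (b₁ : K) := by rw [hτ]; field_simp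
  have hτZ : τ * (Z : K) = (b₂ : K) := by
    rw [hτ]
    field_simp
    linear_combination hbZ
  have hδ₀ : (n : K) * τ = (α : K) * (b₁ : K) + (β : K) * (b₂ : K) := by
    rw [← hαβ', ← hτX, ← hτZ]
    ring
  have hδ₀i : IsIntegral ℤ ((n : K) * τ) := by
    rw [hδ₀]
    exact (α.isIntegral_coe.mul b₁.isIntegral_coe).add (β.isIntegral_coe.mul b₂.isIntegral_coe)
  have hδ₀0 : (n : K) * τ ≠ 0 := mul_ne_zero hnK hτ0
  -- the lower bound for the shared factor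
  have hlow : hh u₁ ≤ (Real.log M + 2 * ln ((n : K) * τ)) + hi u₁ := by
    have h1 := hh_le_ln u₁ ((M : K) * ((n : K) * τ) ^ 2) ((isInt_nat M).mul (hδ₀i.pow 2))
      (mul_ne_zero hMK (pow_ne_zero _ hδ₀0)) ?_
    · rw [ln_mul _ _ hMK (pow_ne_zero _ hδ₀0), ln_natCast M hM0, ln_pow' _ hδ₀0] at h1
      push_cast at h1
      exact h1
    · refine isIntegral_of_places _ fun v => ?_
      have hA := one_le_inv_pl v hn₂
      set A := (v (n₂ : K))⁻¹ with hAdef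
      have hn0 : 0 < v (n₂ : K) := FinitePlace.pos_iff.2 (Nat.cast_ne_zero.2 hn₂)
      have hnA : v (n₂ : K) * A = 1 := mul_inv_cancel₀ hn0.ne'
      have key : ∀ (x u : K) (a b : 𝓞 K), x * (b : K) = a → Rel c₀ c₁ c₂ s u x →
          v (n₂ : K) ^ 2 * v (u * (b : K) ^ 2) ≤ 1 := by
        intro x u a b hab hr
        have hb : v (b : K) ≤ 1 := place_le_one v b.isIntegral_coe
        have ha : v (a : K) ≤ 1 := place_le_one v a.isIntegral_coe
        have hx : v ((x - s) * (b : K)) ≤ A := by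
          rw [sub_mul, hab]
          refine (pl_sub_le v _ _).trans (max_le (ha.trans hA) ?_)
          rw [map_mul]
          calc v s * v (b : K) ≤ A * 1 :=
                mul_le_mul (pl_den v hn₂ is) hb (apply_nonneg v _) (by linarith)
            _ = A := mul_one A
        have h2 := loc_xi v hA (pl_den v hn₂ i0) (pl_den v hn₂ i1) (pl_den v hn₂ i2) hb hx hr
        calc v (n₂ : K) ^ 2 * v (u * (b : K) ^ 2) ≤ v (n₂ : K) ^ 2 * A ^ 2 :=
              mul_le_mul_of_nonneg_left h2 (by positivity)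
          _ = (v (n₂ : K) * A) ^ 2 := by ring
          _ = 1 := by rw [hnA, one_pow]
      have k1 := key x₁ u₁ a₁ b₁ hx₁ hr₁
      have k2 := key x₂ u₂ a₂ b₂ hx₂ hr₂
      have hn₁v : v (n₁ : K) ≤ 1 := pl_natCast_le v n₁
      have hb2 : v (b₂ : K) ≤ 1 := place_le_one v b₂.isIntegral_coe
      have m1 : v (n₁ : K) * v (n₂ : K) ^ 2 * (v (b₁ : K) ^ 2 * v u₁) ≤ 1 := by
        rw [map_mul, map_pow] at k1
        have h0 : 0 ≤ v (n₂ : K) ^ 2 * (v u₁ * v (b₁ : K) ^ 2) :=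
          mul_nonneg (by positivity) (mul_nonneg (apply_nonneg v _) (by positivity))
        calc v (n₁ : K) * v (n₂ : K) ^ 2 * (v (b₁ : K) ^ 2 * v u₁)
            = v (n₁ : K) * (v (n₂ : K) ^ 2 * (v u₁ * v (b₁ : K) ^ 2)) := by ring
          _ ≤ 1 * 1 := mul_le_mul hn₁v k1 h0 zero_le_one
          _ = 1 := mul_one 1
      have m2 : v (n₁ : K) * v (n₂ : K) ^ 2 * (v (b₂ : K) ^ 2 * v u₁) ≤ 1 := by
        have h3 := hdom v
        rw [map_mul] at h3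
        rw [map_mul, map_pow] at k2
        have n2le : v (n₂ : K) ^ 2 ≤ 1 := pow_le_one₀ hn0.le (pl_natCast_le v n₂)
        have b2le : v (b₂ : K) ^ 2 ≤ 1 := pow_le_one₀ (apply_nonneg v _) hb2
        have hnn : 0 ≤ v (n₂ : K) ^ 2 * v (b₂ : K) ^ 2 := by positivity
        calc v (n₁ : K) * v (n₂ : K) ^ 2 * (v (b₂ : K) ^ 2 * v u₁)
            = (v (n₂ : K) ^ 2 * v (b₂ : K) ^ 2) * (v (n₁ : K) * v u₁) := by ring
          _ ≤ (v (n₂ : K) ^ 2 * v (b₂ : K) ^ 2) * max 1 (v u₂) :=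
              mul_le_mul_of_nonneg_left h3 hnn
          _ ≤ 1 := by
              rw [mul_max_of_nonneg _ _ hnn, mul_one]
              refine max_le ?_ ?_
              · calc v (n₂ : K) ^ 2 * v (b₂ : K) ^ 2 ≤ 1 * 1 :=
                    mul_le_mul n2le b2le (by positivity) zero_le_one
                  _ = 1 := mul_one 1
              · calc v (n₂ : K) ^ 2 * v (b₂ : K) ^ 2 * v u₂
                    = v (n₂ : K) ^ 2 * (v u₂ * v (b₂ : K) ^ 2) := by ring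
                  _ ≤ 1 := k2
      have hτle : v ((n : K) * τ) ≤ max (v (b₁ : K)) (v (b₂ : K)) := by
        rw [hδ₀]
        refine (FinitePlace.add_le v _ _).trans (max_le_max ?_ ?_)
        · rw [map_mul]
          exact mul_le_of_le_one_left (apply_nonneg v _) (place_le_one v α.isIntegral_coe)
        · rw [map_mul]
          exact mul_le_of_le_one_left (apply_nonneg v _) (place_le_one v β.isIntegral_coe)
      have hMv : v (M : K) = v (n₁ : K) * v (n₂ : K) ^ 2 := by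
        rw [hM]
        push_cast
        rw [map_mul, map_pow]
      rw [map_mul, map_mul, map_pow, hMv]
      have hP0 : 0 ≤ v (n₁ : K) * v (n₂ : K) ^ 2 := mul_nonneg (apply_nonneg v _) (by positivity)
      have hu0 := apply_nonneg v u₁
      calc v u₁ * (v (n₁ : K) * v (n₂ : K) ^ 2 * v ((n : K) * τ) ^ 2)
          ≤ v u₁ * (v (n₁ : K) * v (n₂ : K) ^ 2 * (max (v (b₁ : K)) (v (b₂ : K))) ^ 2) := by
            gcongr
        _ ≤ 1 := by
            rcases max_choice (v (b₁ : K)) (v (b₂ : K)) with h | h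
            · rw [h]
              calc _ = v (n₁ : K) * v (n₂ : K) ^ 2 * (v (b₁ : K) ^ 2 * v u₁) := by ring
                _ ≤ 1 := m1
            · rw [h]
              calc _ = v (n₁ : K) * v (n₂ : K) ^ 2 * (v (b₂ : K) ^ 2 * v u₁) := by ring
                _ ≤ 1 := m2
  have hiu := hC₂ u₁ x₁ hr₁
  refine ⟨(n : K) * τ, (n : K) * X * d₁, (n : K) * Z * d₂, ((n : K) * ((N : K) * (b₁ : K) ^ (t + 1)))⁻¹,
    ((n : K) * ((N : K) * (b₂ : K) ^ (t + 1)))⁻¹, hδ₀0, mul_ne_zero (mul_ne_zero hnK hXK) hd₁K,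
    mul_ne_zero (mul_ne_zero hnK hZK) hd₂K,
    inv_ne_zero (mul_ne_zero hnK (mul_ne_zero hNK (pow_ne_zero _ hb₁K))),
    inv_ne_zero (mul_ne_zero hnK (mul_ne_zero hNK (pow_ne_zero _ hb₂K))), hδ₀i,
    ((isInt_nat n).mul X.isIntegral_coe).mul d₁.isIntegral_coe,
    ((isInt_nat n).mul Z.isIntegral_coe).mul d₂.isIntegral_coe, ?_, ?_, ?_⟩
  · have hp : (N : K) * (b₁ : K) ^ (t + 1) ≠ 0 := mul_ne_zero hNK (pow_ne_zero _ hb₁K)
    have e1 : (n : K) * τ * ((n : K) * X * d₁) = (n : K) ^ 2 * (q.eval x₁ *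
        ((N : K) * (b₁ : K) ^ (t + 1)) ^ 2) := by
      rw [he₁, ← hτX]
      ring
    rw [e1, inv_pow, mul_pow]
    field_simp
  · have hp : (N : K) * (b₂ : K) ^ (t + 1) ≠ 0 := mul_ne_zero hNK (pow_ne_zero _ hb₂K)
    have e1 : (n : K) * τ * ((n : K) * Z * d₂) = (n : K) ^ 2 * (q.eval x₂ *
        ((N : K) * (b₂ : K) ^ (t + 1)) ^ 2) := by
      rw [he₂, ← hτZ]
      ring
    rw [e1, inv_pow, mul_pow]
    field_simp
  · have l1 : ln (b₁ : K) = ln τ + ln (X : K) := by rw [← hτX, ln_mul _ _ hτ0 hXK]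
    have l2 : ln (b₂ : K) = ln τ + ln (Z : K) := by rw [← hτZ, ln_mul _ _ hτ0 hZK]
    rw [ln_mul _ _ (mul_ne_zero hnK hXK) hd₁K, ln_mul _ _ (mul_ne_zero hnK hZK) hd₂K,
      ln_mul _ _ hnK hXK, ln_mul _ _ hnK hZK]
    rw [ln_mul _ _ hnK hτ0] at hlow ⊢
    rw [ln_natCast n hn] at hlow ⊢
    have hi2 := hi_nonneg x₂
    linarith

end Pool.Agent.L0h52.VP
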